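import Mathlib

set_option autoImplicit false
open Classical
open Finset

namespace Pool.Agent.Helper49.Star

variable {n : ℕ}

/-- vertices of minimum degree -/
noncomputable def mins (G : SimpleGraph (Fin n)) : Finset (Fin n) :=
  Finset.univ.filter (fun w => ∀ u, G.degree w ≤ G.degree u)

/-- vertices available to the centre `v` -/
noncomputable def avail (d : ℕ) (G : SimpleGraph (Fin n)) (v : Fin n) : Finset (Fin n) :=
  Finset.univ.filter (fun u => u ≠ v ∧ G.degree u < d ∧ ¬ G.Adj v u)

/-- unsaturated vertices -/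
noncomputable def uns (d : ℕ) (G : SimpleGraph (Fin n)) : Finset (Fin n) :=
  Finset.univ.filter (fun u => G.degree u < d)

/-- add a star centred at `v` -/
def star (G : SimpleGraph (Fin n)) (v : Fin n) (S : Finset (Fin n)) : SimpleGraph (Fin n) :=
  G ⊔ SimpleGraph.fromRel (fun x y => x = v ∧ y ∈ S)

/-- the one-step transition operator of the star `d`-process -/
noncomputable def step (d : ℕ) (f : SimpleGraph (Fin n) → ℝ) (G : SimpleGraph (Fin n)) : ℝ :=
  if (∀ v, G.degree v = d) then f G else
    ∑ v ∈ mins G, ∑ S ∈ (avail d G v).powersetCard (d - G.degree v),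
      f (star G v S) /
        (((mins G).card : ℝ) * (((avail d G v).card.choose (d - G.degree v) : ℕ) : ℝ))

theorem mem_mins {G : SimpleGraph (Fin n)} {w : Fin n} :
    w ∈ mins G ↔ ∀ u, G.degree w ≤ G.degree u := by
  simp [mins]

theorem mem_avail {d : ℕ} {G : SimpleGraph (Fin n)} {v u : Fin n} :
    u ∈ avail d G v ↔ u ≠ v ∧ G.degree u < d ∧ ¬ G.Adj v u := by
  simp [avail]

theorem mem_uns {d : ℕ} {G : SimpleGraph (Fin n)} {u : Fin n} :
    u ∈ uns d G ↔ G.degree u < d := by
  simp [uns]

theorem star_adj {G : SimpleGraph (Fin n)} {v : Fin n} {S : Finset (Fin n)} {x y : Fin n} :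
    (star G v S).Adj x y ↔ G.Adj x y ∨ (x ≠ y ∧ ((x = v ∧ y ∈ S) ∨ (y = v ∧ x ∈ S))) := by
  simp [star]

theorem degree_star_center {d : ℕ} {G : SimpleGraph (Fin n)} {v : Fin n} {S : Finset (Fin n)}
    (hS : S ⊆ avail d G v) : (star G v S).degree v = G.degree v + S.card := by
  have h : (star G v S).neighborFinset v = G.neighborFinset v ∪ S := by
    ext u
    simp only [SimpleGraph.mem_neighborFinset, star_adj, Finset.mem_union]
    constructor
    · rintro (h | ⟨h1, ⟨-, h2⟩ | ⟨h2, -⟩⟩)
      · exact Or.inl h
      · exact Or.inr h2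
      · exact absurd h2.symm h1
    · rintro (h | h)
      · exact Or.inl h
      · have := (mem_avail.1 (hS h)).1
        exact Or.inr ⟨this.symm, Or.inl ⟨trivial, h⟩⟩
  rw [← SimpleGraph.card_neighborFinset_eq_degree, ← SimpleGraph.card_neighborFinset_eq_degree, h,
    Finset.card_union_of_disjoint]
  rw [Finset.disjoint_left]
  intro u hu hu'
  exact (mem_avail.1 (hS hu')).2.2 ((SimpleGraph.mem_neighborFinset _ _ _).1 hu)

theorem degree_star_other {d : ℕ} {G : SimpleGraph (Fin n)} {v : Fin n} {S : Finset (Fin n)}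
    (hS : S ⊆ avail d G v) {w : Fin n} (hw : w ≠ v) :
    (star G v S).degree w = G.degree w + (if w ∈ S then 1 else 0) := by
  have h : (star G v S).neighborFinset w
      = G.neighborFinset w ∪ (if w ∈ S then {v} else ∅) := by
    ext u
    by_cases hwS : w ∈ S
    · simp only [SimpleGraph.mem_neighborFinset, star_adj, Finset.mem_union, hwS, if_true,
        Finset.mem_singleton]
      constructor
      · rintro (h | ⟨h1, ⟨h2, -⟩ | ⟨h2, -⟩⟩)
        · exact Or.inl h
        · exact absurd h2 hw
        · exact Or.inr h2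
      · rintro (h | h)
        · exact Or.inl h
        · exact Or.inr ⟨by rw [h]; exact hw, Or.inr ⟨h, trivial⟩⟩
    · simp only [SimpleGraph.mem_neighborFinset, star_adj, Finset.mem_union, hwS, if_false,
        Finset.notMem_empty, or_false, and_false]
      constructor
      · rintro (h | ⟨h1, h2, -⟩)
        · exact h
        · exact absurd h2 hw
      · exact Or.inl
  rw [← SimpleGraph.card_neighborFinset_eq_degree, ← SimpleGraph.card_neighborFinset_eq_degree, h,
    Finset.card_union_of_disjoint]
  · congr 1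
    split_ifs <;> simp
  · by_cases hwS : w ∈ S
    · simp only [hwS, if_true, Finset.disjoint_singleton_right]
      intro hu
      have := (mem_avail.1 (hS hwS)).2.2
      exact this ((SimpleGraph.mem_neighborFinset _ _ _).1 hu).symm
    · simp [hwS]

/-- validity of a state: degrees at most `d`, and no edge between unsaturated vertices -/
def Valid (d : ℕ) (G : SimpleGraph (Fin n)) : Prop :=
  (∀ v, G.degree v ≤ d) ∧ (∀ u v, G.Adj u v → G.degree u = d ∨ G.degree v = d)

theorem valid_bot (d : ℕ) : Valid d (⊥ : SimpleGraph (Fin n)) := by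
  refine ⟨fun v => by simp, fun u v h => ?_⟩
  simp at h

theorem avail_eq {d : ℕ} {G : SimpleGraph (Fin n)} (hG : Valid d G) {v : Fin n}
    (hv : G.degree v < d) : avail d G v = (uns d G).erase v := by
  ext u
  simp only [mem_avail, Finset.mem_erase, mem_uns]
  constructor
  · rintro ⟨h1, h2, -⟩
    exact ⟨h1, h2⟩
  · rintro ⟨h1, h2⟩
    refine ⟨h1, h2, fun h => ?_⟩
    rcases hG.2 v u h with h3 | h3 <;> omega

theorem mins_degree_lt {d : ℕ} {G : SimpleGraph (Fin n)} (hG : Valid d G)
    (hreg : ¬ ∀ v, G.degree v = d) {v : Fin n} (hv : v ∈ mins G) : G.degree v < d := by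
  by_contra h
  apply hreg
  intro w
  have h1 := mem_mins.1 hv w
  have h2 := hG.1 w
  omega

theorem mins_nonempty {d : ℕ} {G : SimpleGraph (Fin n)}
    (hreg : ¬ ∀ v, G.degree v = d) : (mins G).Nonempty := by
  push Not at hreg
  obtain ⟨v, -⟩ := hreg
  have : Nonempty (Fin n) := ⟨v⟩
  obtain ⟨w, hw⟩ := Finite.exists_min (fun u => G.degree u)
  exact ⟨w, mem_mins.2 hw⟩

theorem uns_eq_empty_iff {d : ℕ} {G : SimpleGraph (Fin n)} (hG : Valid d G) :
    uns d G = ∅ ↔ ∀ v, G.degree v = d := by
  constructor
  · intro h v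
    have h1 := hG.1 v
    have : v ∉ uns d G := by rw [h]; simp
    rw [mem_uns] at this
    omega
  · intro h
    ext v
    simp [mem_uns, h v]

theorem valid_star {d : ℕ} {G : SimpleGraph (Fin n)} (hG : Valid d G) {v : Fin n}
    (hv : G.degree v < d) {S : Finset (Fin n)}
    (hS : S ∈ (avail d G v).powersetCard (d - G.degree v)) : Valid d (star G v S) := by
  rw [Finset.mem_powersetCard] at hS
  have hc : (star G v S).degree v = d := by
    rw [degree_star_center hS.1, hS.2]; omega
  have key : ∀ w, G.degree w ≤ (star G v S).degree w := by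
    intro w
    by_cases hw : w = v
    · subst hw; rw [degree_star_center hS.1]; omega
    · rw [degree_star_other hS.1 hw]; omega
  have h1 : ∀ w, (star G v S).degree w ≤ d := by
    intro w
    by_cases hw : w = v
    · subst hw; exact hc.le
    · rw [degree_star_other hS.1 hw]
      split_ifs with hwS
      · have := (mem_avail.1 (hS.1 hwS)).2.1
        omega
      · exact hG.1 w
  refine ⟨h1, fun x y hxy => ?_⟩
  rw [star_adj] at hxy
  rcases hxy with h | ⟨-, ⟨h, -⟩ | ⟨h, -⟩⟩
  · rcases hG.2 x y h with h2 | h2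
    · left; have := key x; have := h1 x; omega
    · right; have := key y; have := h1 y; omega
  · left; rw [h]; exact hc
  · right; rw [h]; exact hc

/-- the unsaturated set after a step -/
theorem uns_star_subset {d : ℕ} {G : SimpleGraph (Fin n)} {v : Fin n}
    {S : Finset (Fin n)}
    (hv : G.degree v < d)
    (hS : S ∈ (avail d G v).powersetCard (d - G.degree v)) :
    uns d (star G v S) ⊆ (uns d G).erase v := by
  rw [Finset.mem_powersetCard] at hS
  intro w hw
  rw [mem_uns] at hw
  have hwv : w ≠ v := by
    rintro rfl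
    rw [degree_star_center hS.1, hS.2] at hw
    omega
  rw [degree_star_other hS.1 hwv] at hw
  rw [Finset.mem_erase, mem_uns]
  exact ⟨hwv, by omega⟩

theorem sdiff_subset_uns_star {d : ℕ} {G : SimpleGraph (Fin n)} {v : Fin n}
    {S : Finset (Fin n)}
    (hS : S ∈ (avail d G v).powersetCard (d - G.degree v)) :
    (uns d G).erase v \ S ⊆ uns d (star G v S) := by
  rw [Finset.mem_powersetCard] at hS
  intro w hw
  rw [Finset.mem_sdiff, Finset.mem_erase, mem_uns] at hw
  rw [mem_uns, degree_star_other hS.1 hw.1.1, if_neg hw.2]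
  exact hw.1.2

theorem card_uns_star_le {d : ℕ} {G : SimpleGraph (Fin n)} {v : Fin n}
    {S : Finset (Fin n)} (hv : G.degree v < d)
    (hS : S ∈ (avail d G v).powersetCard (d - G.degree v)) :
    (uns d (star G v S)).card + 1 ≤ (uns d G).card := by
  have h := Finset.card_le_card (uns_star_subset hv hS)
  have hv' : v ∈ uns d G := mem_uns.2 hv
  rw [Finset.card_erase_of_mem hv'] at h
  have : 0 < (uns d G).card := Finset.card_pos.2 ⟨v, hv'⟩
  omega

theorem card_uns_star_ge {d : ℕ} {G : SimpleGraph (Fin n)} {v : Fin n}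
    {S : Finset (Fin n)} (hv : G.degree v < d)
    (hS : S ∈ (avail d G v).powersetCard (d - G.degree v)) :
    (uns d G).card ≤ (uns d (star G v S)).card + 1 + (d - G.degree v) := by
  have h := Finset.card_le_card (sdiff_subset_uns_star hS)
  have hv' : v ∈ uns d G := mem_uns.2 hv
  have h2 := Finset.le_card_sdiff S ((uns d G).erase v)
  rw [Finset.card_erase_of_mem hv'] at h2
  have h3 := (Finset.mem_powersetCard.1 hS).2
  omega

theorem step_reg {d : ℕ} {f : SimpleGraph (Fin n) → ℝ} {G : SimpleGraph (Fin n)}
    (h : ∀ v, G.degree v = d) : step d f G = f G := by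
  rw [step, if_pos h]

theorem step_nonneg {d : ℕ} {f : SimpleGraph (Fin n) → ℝ} (hf : ∀ G, 0 ≤ f G)
    (G : SimpleGraph (Fin n)) : 0 ≤ step d f G := by
  rw [step]
  split_ifs
  · exact hf G
  · exact Finset.sum_nonneg fun v _ => Finset.sum_nonneg fun S _ =>
      div_nonneg (hf _) (by positivity)

theorem iter_nonneg {d : ℕ} {f : SimpleGraph (Fin n) → ℝ} (hf : ∀ G, 0 ≤ f G) (s : ℕ) :
    ∀ G : SimpleGraph (Fin n), 0 ≤ (step d)^[s] f G := by
  induction s with
  | zero => exact hf
  | succ s ih => 
    intro G
    rw [Function.iterate_succ_apply']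
    exact step_nonneg ih G

/-- monotonicity relative to an invariant family of predicates -/
theorem step_mono_on {d : ℕ} {f g : SimpleGraph (Fin n) → ℝ} {G : SimpleGraph (Fin n)}
    (h0 : f G ≤ g G)
    (h : ∀ v ∈ mins G, ∀ S ∈ (avail d G v).powersetCard (d - G.degree v),
      f (star G v S) ≤ g (star G v S)) :
    step d f G ≤ step d g G := by
  rw [step, step]
  split_ifs
  · exact h0
  · exact Finset.sum_le_sum fun v hv => Finset.sum_le_sum fun S hS =>
      div_le_div_of_nonneg_right (h v hv S hS) (by positivity)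

/-- if for every admissible centre the average is at least `B`, then the step is at least `B` -/
theorem le_step {d : ℕ} {f : SimpleGraph (Fin n) → ℝ} {G : SimpleGraph (Fin n)} {B : ℝ}
    (hreg : ¬ ∀ v, G.degree v = d)
    (h : ∀ v ∈ mins G, B * ((avail d G v).card.choose (d - G.degree v) : ℕ) ≤
      ∑ S ∈ (avail d G v).powersetCard (d - G.degree v), f (star G v S))
    (hpos : ∀ v ∈ mins G, 0 < (avail d G v).card.choose (d - G.degree v)) :
    B ≤ step d f G := by
  rw [step, if_neg hreg]
  have hne := mins_nonempty hreg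
  have hc : (0 : ℝ) < (mins G).card := by exact_mod_cast Finset.card_pos.2 hne
  have : ∑ v ∈ mins G, B / (mins G).card ≤ ∑ v ∈ mins G,
      ∑ S ∈ (avail d G v).powersetCard (d - G.degree v),
      f (star G v S) /
        (((mins G).card : ℝ) * (((avail d G v).card.choose (d - G.degree v) : ℕ) : ℝ)) := by
    apply Finset.sum_le_sum
    intro v hv
    rw [← Finset.sum_div]
    have hp : (0 : ℝ) < ((avail d G v).card.choose (d - G.degree v) : ℕ) := by
      exact_mod_cast hpos v hv
    rw [div_le_div_iff₀ hc (by positivity)]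
    have := h v hv
    nlinarith
  rw [Finset.sum_const, nsmul_eq_mul, mul_div_cancel₀ _ hc.ne'] at this
  exact this

/-- a single admissible move gives a lower bound -/
theorem le_step_single {d : ℕ} {f : SimpleGraph (Fin n) → ℝ} (hf : ∀ G, 0 ≤ f G)
    {G : SimpleGraph (Fin n)}
    (hreg : ¬ ∀ v, G.degree v = d) {v : Fin n} (hv : v ∈ mins G) {S : Finset (Fin n)}
    (hS : S ∈ (avail d G v).powersetCard (d - G.degree v)) :
    f (star G v S) /
        (((mins G).card : ℝ) * (((avail d G v).card.choose (d - G.degree v) : ℕ) : ℝ))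
      ≤ step d f G := by
  rw [step, if_neg hreg]
  refine le_trans ?_ (Finset.single_le_sum (f := fun v => 
    ∑ S ∈ (avail d G v).powersetCard (d - G.degree v), f (star G v S) /
        (((mins G).card : ℝ) * (((avail d G v).card.choose (d - G.degree v) : ℕ) : ℝ)))
    (fun v _ => Finset.sum_nonneg fun S _ => div_nonneg (hf _) (by positivity)) hv)
  exact Finset.single_le_sum (f := fun S => f (star G v S) /
        (((mins G).card : ℝ) * (((avail d G v).card.choose (d - G.degree v) : ℕ) : ℝ)))
    (fun S _ => div_nonneg (hf _) (by positivity)) hS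

end Pool.Agent.Helper49.Star
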