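import Mathlib
import Pool.Agent.Helper49.StarBasic

set_option autoImplicit false
open Classical
open Finset

namespace Pool.Agent.Helper49.Star

variable {n : ℕ}

/-- indicator of regularity -/
noncomputable def reg1 (d : ℕ) (G : SimpleGraph (Fin n)) : ℝ :=
  if (∀ v, G.degree v = d) then 1 else 0

/-- probability of having finished successfully after `s` steps -/
noncomputable def succp (d s : ℕ) (G : SimpleGraph (Fin n)) : ℝ :=
  (step d)^[s] (reg1 d) G

theorem reg1_nonneg (d : ℕ) (G : SimpleGraph (Fin n)) : 0 ≤ reg1 d G := by
  rw [reg1]; split_ifs <;> norm_num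

theorem succp_nonneg (d s : ℕ) (G : SimpleGraph (Fin n)) : 0 ≤ succp d s G :=
  iter_nonneg (reg1_nonneg d) s G

theorem succp_succ (d s : ℕ) (G : SimpleGraph (Fin n)) :
    succp d (s + 1) G = step d (succp d s) G := by
  have : succp d s = ((step d)^[s] (reg1 d) : SimpleGraph (Fin n) → ℝ) := rfl
  rw [this, ← Function.iterate_succ_apply' (step d) s]
  rfl

theorem succp_reg {d s : ℕ} {G : SimpleGraph (Fin n)} (h : ∀ v, G.degree v = d) :
    succp d s G = 1 := by
  induction s with
  | zero => simp [succp, reg1, h]
  | succ s ih => rw [succp_succ, step_reg h, ih]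

theorem succp_mono_succ (d s : ℕ) : ∀ G : SimpleGraph (Fin n),
    succp d s G ≤ succp d (s + 1) G := by
  induction s with
  | zero =>
    intro G
    by_cases h : ∀ v, G.degree v = d
    · rw [succp_reg h, succp_reg h]
    · have : succp d 0 G = 0 := by simp only [succp, Function.iterate_zero, id_eq, reg1, if_neg h]
      rw [this]
      exact succp_nonneg _ _ _
  | succ s ih =>
    intro G
    rw [succp_succ, succp_succ d (s + 1)]
    exact step_mono_on (ih G) (fun v _ S _ => ih _)

theorem succp_mono {d s s' : ℕ} (h : s ≤ s') (G : SimpleGraph (Fin n)) :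
    succp d s G ≤ succp d s' G := by
  induction s', h using Nat.le_induction with
  | base => exact le_rfl
  | succ s' _ ih => exact ih.trans (succp_mono_succ d s' G)

/-- arithmetic condition ensuring that the process can be completed -/
def Good (d : ℕ) (G : SimpleGraph (Fin n)) : Prop :=
  (∀ v, G.degree v = d) ∨ ∃ r : ℕ, 1 ≤ r ∧ (∀ v ∈ mins G, G.degree v + r = d) ∧
    (r = 1 ∨ (r + 1) * (2 * r * r + 1) + (mins G).card ≤ (r + 1) * ((uns d G).card + r))

theorem mins_subset_uns {d : ℕ} {G : SimpleGraph (Fin n)} (hG : Valid d G)
    (hreg : ¬ ∀ v, G.degree v = d) : mins G ⊆ uns d G := fun _ hv =>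
  mem_uns.2 (mins_degree_lt hG hreg hv)

/-- goodness from a lower bound on the minimum degree and many unsaturated vertices -/
theorem good_of_card {d : ℕ} {G : SimpleGraph (Fin n)} (hG : Valid d G) {r : ℕ}
    (hr : ∀ v, d ≤ G.degree v + r) (hm : 2 * (r + 1) * r ≤ (uns d G).card) : Good d G := by
  by_cases hreg : ∀ v, G.degree v = d
  · exact Or.inl hreg
  right
  obtain ⟨w, hw⟩ := mins_nonempty hreg
  have hwd := mins_degree_lt hG hreg hw
  refine ⟨d - G.degree w, by omega, fun v hv => ?_, ?_⟩
  · have h1 := mem_mins.1 hw v
    have h2 := mem_mins.1 hv w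
    omega
  · right
    have hle : d - G.degree w ≤ r := by have := hr w; omega
    obtain ⟨q, hq⟩ : ∃ q, q = d - G.degree w := ⟨_, rfl⟩
    rw [← hq] at hle ⊢
    have hq1 : 1 ≤ q := by omega
    have hz := Finset.card_le_card (mins_subset_uns hG hreg)
    have hm' : 2 * (q + 1) * q ≤ (uns d G).card := by
      refine le_trans ?_ hm
      gcongr
    nlinarith [Nat.mul_le_mul_left q hm', Nat.zero_le q]

theorem even_card_uns {d : ℕ} {G : SimpleGraph (Fin n)} (hG : Valid d G) (hd : Even (d * n))
    (h1 : ∀ v ∈ uns d G, G.degree v + 1 = d) : Even (uns d G).card := by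
  have hsum := G.sum_degrees_eq_twice_card_edges
  have h2 : ∑ v, G.degree v + (uns d G).card = d * n := by
    have : (uns d G).card = ∑ v, (if G.degree v < d then 1 else 0) := by
      rw [uns, Finset.card_filter]
    rw [this, ← Finset.sum_add_distrib]
    have h3 : ∀ v ∈ (Finset.univ : Finset (Fin n)),
        G.degree v + (if G.degree v < d then 1 else 0) = d := by
      intro v _
      split_ifs with h
      · exact h1 v (mem_uns.2 h)
      · have := hG.1 v; omega
    rw [Finset.sum_congr rfl h3]
    simp [mul_comm]
  rw [hsum] at h2
  rcases hd with ⟨a, ha⟩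
  rw [Nat.even_iff]
  omega

/-- a good state has a move to a good state -/
theorem exists_good_move {d : ℕ} {G : SimpleGraph (Fin n)} (hG : Valid d G) (hd : Even (d * n))
    (hreg : ¬ ∀ v, G.degree v = d) (hgood : Good d G) :
    ∃ v ∈ mins G, ∃ S ∈ (avail d G v).powersetCard (d - G.degree v), Good d (star G v S) := by
  rcases hgood with h | ⟨r, hr1, hr, hgood⟩
  · exact absurd h hreg
  obtain ⟨v, hv⟩ := mins_nonempty hreg
  have hvd := mins_degree_lt hG hreg hv
  have hav := avail_eq hG hvd
  have hvu : v ∈ uns d G := mem_uns.2 hvd
  have hrv : d - G.degree v = r := by have := hr v hv; omega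
  have hmu := mins_subset_uns hG hreg
  have hcard : ((uns d G).erase v).card = (uns d G).card - 1 := Finset.card_erase_of_mem hvu
  have hmpos : 0 < (uns d G).card := Finset.card_pos.2 ⟨v, hvu⟩
  have hmin : ∀ u, d ≤ G.degree u + r := by
    intro u
    have := mem_mins.1 hv u
    have := hr v hv
    omega
  refine ⟨v, hv, ?_⟩
  rw [hrv]
  by_cases hr2 : r = 1
  · -- all residuals are one
    subst hr2
    have hall : ∀ u ∈ uns d G, G.degree u + 1 = d := by
      intro u hu
      have := hmin u
      have := mem_uns.1 hu
      omega
    have heven := even_card_uns hG hd hall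
    have h2 : 2 ≤ (uns d G).card := by
      rcases heven with ⟨a, ha⟩; omega
    obtain ⟨S, hS, hSc⟩ := Finset.exists_subset_card_eq
      (show 1 ≤ ((uns d G).erase v).card by rw [hcard]; omega)
    have hSm : S ∈ (avail d G v).powersetCard 1 := by
      rw [Finset.mem_powersetCard, hav]; exact ⟨hS, hSc⟩
    refine ⟨S, hSm, ?_⟩
    have hSm' : S ∈ (avail d G v).powersetCard (d - G.degree v) := by rw [hrv]; exact hSm
    have hval := valid_star hG hvd hSm'
    by_cases hreg' : ∀ u, (star G v S).degree u = d
    · exact Or.inl hreg'
    · right
      refine ⟨1, le_rfl, fun u hu => ?_, Or.inl rfl⟩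
      have h3 := mins_subset_uns hval hreg' hu
      have h4 := uns_star_subset hvd hSm' h3
      rw [Finset.mem_erase] at h4
      have h5 := hall u h4.2
      have h6 := mem_uns.1 h3
      have h7 := (Finset.mem_powersetCard.1 hSm).1
      rw [degree_star_other h7 h4.1] at h6 ⊢
      omega
  · have hr2' : 2 ≤ r := by omega
    have hineq : (r + 1) * (2 * r * r + 1) + (mins G).card ≤ (r + 1) * ((uns d G).card + r) := by
      rcases hgood with h | h
      · exact absurd h hr2
      · exact h
    have hz1 : 1 ≤ (mins G).card := Finset.card_pos.2 ⟨v, hv⟩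
    have hm1 : 2 * r * r + 2 ≤ (uns d G).card + r := by
      by_contra hcon
      push Not at hcon
      have : (uns d G).card + r ≤ 2 * r * r + 1 := by omega
      have := Nat.mul_le_mul_left (r + 1) this
      omega
    have hrr : 2 * r ≤ r * r := Nat.mul_le_mul_right r hr2'
    have hrm : r + 1 ≤ (uns d G).card := by nlinarith
    have hZcard : ((mins G).erase v).card = (mins G).card - 1 := Finset.card_erase_of_mem hv
    -- the general drop argument
    have hdrop : ∀ S ∈ (avail d G v).powersetCard r, (mins G).erase v ⊆ S →
        Good d (star G v S) := by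
      intro S hSm hZS
      have hSm' : S ∈ (avail d G v).powersetCard (d - G.degree v) := by rw [hrv]; exact hSm
      have hval := valid_star hG hvd hSm'
      have hge := card_uns_star_ge hvd hSm'
      rw [hrv] at hge
      have hSs := (Finset.mem_powersetCard.1 hSm).1
      refine good_of_card (r := r - 1) hval ?_ ?_
      · intro u
        by_cases huv : u = v
        · subst huv
          rw [degree_star_center hSs]
          have := (Finset.mem_powersetCard.1 hSm).2
          omega
        · rw [degree_star_other hSs huv]
          by_cases hum : u ∈ mins G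
          · rw [if_pos (hZS (Finset.mem_erase.2 ⟨huv, hum⟩))]
            have := hmin u
            omega
          · have h8 : ¬ ∀ w, G.degree u ≤ G.degree w := fun h => hum (mem_mins.2 h)
            push Not at h8
            obtain ⟨w, hw⟩ := h8
            have := hmin w
            omega
      · obtain ⟨q, rfl⟩ : ∃ q, r = q + 1 := ⟨r - 1, by omega⟩
        have : q + 1 - 1 = q := by omega
        rw [this]
        nlinarith
    by_cases hzr : r + 2 ≤ (mins G).card
    · -- many vertices of minimum degree
      obtain ⟨S, hS, hSc⟩ := Finset.exists_subset_card_eq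
        (show r ≤ ((mins G).erase v).card by rw [hZcard]; omega)
      have hSs : S ⊆ avail d G v := by
        rw [hav]
        exact hS.trans (Finset.erase_subset_erase v hmu)
      have hSm : S ∈ (avail d G v).powersetCard r := by
        rw [Finset.mem_powersetCard]; exact ⟨hSs, hSc⟩
      refine ⟨S, hSm, ?_⟩
      have hSm' : S ∈ (avail d G v).powersetCard (d - G.degree v) := by rw [hrv]; exact hSm
      have hval := valid_star hG hvd hSm'
      -- the unsaturated set just loses v
      have hun : uns d (star G v S) = (uns d G).erase v := by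
        apply Finset.Subset.antisymm (uns_star_subset hvd hSm')
        intro u hu
        rw [Finset.mem_erase] at hu
        rw [mem_uns, degree_star_other hSs hu.1]
        by_cases huS : u ∈ S
        · rw [if_pos huS]
          have := hr u (Finset.mem_of_mem_erase (hS huS))
          omega
        · rw [if_neg huS]
          have := mem_uns.1 hu.2
          omega
      -- minimum degree vertices
      have hex : ((mins G).erase v \ S).Nonempty := by
        rw [← Finset.card_pos]
        have := Finset.le_card_sdiff S ((mins G).erase v)
        omega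
      have hdeg_ge : ∀ u, G.degree v ≤ (star G v S).degree u := by
        intro u
        by_cases huv : u = v
        · subst huv; rw [degree_star_center hSs]; omega
        · rw [degree_star_other hSs huv]
          have := mem_mins.1 hv u
          omega
      have hmins : mins (star G v S) = (mins G).erase v \ S := by
        obtain ⟨w, hw⟩ := hex
        rw [Finset.mem_sdiff, Finset.mem_erase] at hw
        have hwdeg : (star G v S).degree w = G.degree v := by
          rw [degree_star_other hSs hw.1.1, if_neg hw.2]
          have h1 := mem_mins.1 hw.1.2 v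
          have h2 := mem_mins.1 hv w
          omega
        ext u
        rw [mem_mins, Finset.mem_sdiff, Finset.mem_erase]
        constructor
        · intro h
          have h1 := h w
          rw [hwdeg] at h1
          have huv : u ≠ v := by
            rintro rfl
            rw [degree_star_center hSs, hSc] at h1
            omega
          rw [degree_star_other hSs huv] at h1
          have h2 := mem_mins.1 hv u
          refine ⟨⟨huv, mem_mins.2 fun x => ?_⟩, ?_⟩
          · have h3 := mem_mins.1 hv x
            omega
          · intro huS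
            rw [if_pos huS] at h1
            omega
        · rintro ⟨⟨huv, hum⟩, huS⟩ x
          rw [degree_star_other hSs huv, if_neg huS]
          have h3 := hdeg_ge x
          have h4 := mem_mins.1 hum v
          omega
      right
      refine ⟨r, hr1, ?_, Or.inr ?_⟩
      · intro u hu
        rw [hmins, Finset.mem_sdiff, Finset.mem_erase] at hu
        rw [degree_star_other hSs hu.1.1, if_neg hu.2]
        have := hr u hu.1.2
        omega
      · rw [hun, hcard, hmins, Finset.card_sdiff_of_subset hS, hZcard, hSc]
        obtain ⟨m, hm⟩ : ∃ m, (uns d G).card = m + 1 := ⟨(uns d G).card - 1, by omega⟩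
        obtain ⟨z, hz⟩ : ∃ z, (mins G).card = z + r + 1 :=
          ⟨(mins G).card - r - 1, by omega⟩
        rw [hm, hz] at hineq
        rw [hm, hz]
        have e1 : m + 1 - 1 = m := by omega
        have e2 : z + r + 1 - 1 - r = z := by omega
        rw [e1, e2]
        nlinarith
    · -- few vertices of minimum degree
      have hsub : (mins G).erase v ⊆ (uns d G).erase v := Finset.erase_subset_erase v hmu
      obtain ⟨S, hZS, hSU, hSc⟩ := Finset.exists_subsuperset_card_eq hsub
        (show ((mins G).erase v).card ≤ r by rw [hZcard]; omega)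
        (show r ≤ ((uns d G).erase v).card by rw [hcard]; omega)
      have hSm : S ∈ (avail d G v).powersetCard r := by
        rw [Finset.mem_powersetCard, hav]; exact ⟨hSU, hSc⟩
      exact ⟨S, hSm, hdrop S hSm hZS⟩

/-- lower bound for the success probability from a good state with at most `B` unsaturated
vertices -/
theorem succp_ge_of_good {d : ℕ} (hd : Even (d * n)) (B : ℕ) : ∀ m : ℕ,
    ∀ G : SimpleGraph (Fin n), Valid d G → Good d G → (uns d G).card = m → m ≤ B →
    (1 / ((B : ℝ) * 2 ^ B)) ^ m ≤ succp d m G := by
  intro m
  induction m using Nat.strong_induction_on with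
  | _ m ih =>
    intro G hG hgood hm hmB
    by_cases hreg : ∀ v, G.degree v = d
    · rw [succp_reg hreg]
      have hm0 : m = 0 := by
        rw [← hm, (uns_eq_empty_iff hG).2 hreg]; rfl
      subst hm0
      simp
    · obtain ⟨v, hv, S, hS, hgood'⟩ := exists_good_move hG hd hreg hgood
      have hvd := mins_degree_lt hG hreg hv
      have hle := card_uns_star_le hvd hS
      have hval := valid_star hG hvd hS
      obtain ⟨m', hm'⟩ : ∃ m', (uns d (star G v S)).card = m' := ⟨_, rfl⟩
      have hlt : m' < m := by omega
      have h1 := ih m' hlt _ hval hgood' hm' (by omega)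
      have h2 : succp d m' (star G v S) ≤ succp d (m - 1) (star G v S) :=
        succp_mono (by omega) _
      have h3 := le_step_single (f := succp d (m - 1)) (fun G => succp_nonneg _ _ G) hreg hv hS
      rw [← succp_succ] at h3
      have e : m - 1 + 1 = m := by omega
      rw [e] at h3
      refine le_trans ?_ h3
      have hB : 1 ≤ B := by omega
      have hz : (0 : ℝ) < (mins G).card := by
        exact_mod_cast Finset.card_pos.2 ⟨v, hv⟩
      have hzB : ((mins G).card : ℝ) ≤ B := by
        have := Finset.card_le_card (mins_subset_uns hG hreg)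
        exact_mod_cast (by omega : (mins G).card ≤ B)
      have hcpos : 0 < (avail d G v).card.choose (d - G.degree v) := by
        rw [← Finset.card_powersetCard]
        exact Finset.card_pos.2 ⟨S, hS⟩
      have hcB : (((avail d G v).card.choose (d - G.degree v) : ℕ) : ℝ) ≤ 2 ^ B := by
        have h4 : (avail d G v).card.choose (d - G.degree v) ≤ 2 ^ (avail d G v).card :=
          Nat.choose_le_two_pow _ _
        have h5 : (avail d G v).card ≤ B := by
          rw [avail_eq hG hvd]
          have := Finset.card_erase_le (s := uns d G) (a := v)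
          omega
        have h6 : (2 : ℕ) ^ (avail d G v).card ≤ 2 ^ B := Nat.pow_le_pow_right (by norm_num) h5
        exact_mod_cast h4.trans h6
      have hcpos' : (0 : ℝ) < (((avail d G v).card.choose (d - G.degree v) : ℕ) : ℝ) := by
        exact_mod_cast hcpos
      have hpi : (0 : ℝ) ≤ 1 / ((B : ℝ) * 2 ^ B) := by positivity
      have hpi1 : 1 / ((B : ℝ) * 2 ^ B) ≤ 1 := by
        rw [div_le_one (by positivity)]
        have : (1 : ℝ) ≤ B := by exact_mod_cast hB
        have : (1 : ℝ) ≤ 2 ^ B := one_le_pow₀ (by norm_num)
        nlinarith
      calc (1 / ((B : ℝ) * 2 ^ B)) ^ m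
          ≤ (1 / ((B : ℝ) * 2 ^ B)) ^ (m' + 1) := pow_le_pow_of_le_one hpi hpi1 hlt
        _ = (1 / ((B : ℝ) * 2 ^ B)) ^ m' * (1 / ((B : ℝ) * 2 ^ B)) := pow_succ _ _
        _ ≤ succp d (m - 1) (star G v S) * (1 / (((mins G).card : ℝ) *
            (((avail d G v).card.choose (d - G.degree v) : ℕ) : ℝ))) := by
            apply mul_le_mul (h1.trans h2) _ hpi (succp_nonneg _ _ _)
            apply one_div_le_one_div_of_le (by positivity)
            exact mul_le_mul hzB hcB hcpos'.le (by positivity)
        _ = _ := by rw [mul_one_div]

/-- threshold and bound for the endgame -/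
def Kd (d : ℕ) : ℕ := 2 * (d + 1) * d
def Bd (d : ℕ) : ℕ := Kd d + d + 1
noncomputable def cd (d : ℕ) : ℝ := (1 / ((Bd d : ℝ) * 2 ^ (Bd d))) ^ (Bd d)

theorem cd_pos (d : ℕ) : 0 < cd d := by
  unfold cd
  have : (0 : ℝ) < Bd d := by
    have : 0 < Bd d := by unfold Bd; omega
    exact_mod_cast this
  positivity

theorem succp_ge {d : ℕ} (hd : Even (d * n)) : ∀ m : ℕ,
    ∀ G : SimpleGraph (Fin n), Valid d G → (uns d G).card = m → Kd d ≤ m → ∀ s, m ≤ s →
    cd d ≤ succp d s G := by
  intro m
  induction m using Nat.strong_induction_on with
  | _ m ih =>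
    intro G hG hm hK s hs
    by_cases hmB : m ≤ Bd d
    · have hgood : Good d G := by
        refine good_of_card (r := d) hG (fun v => by omega) ?_
        rw [hm]; exact hK
      have h1 := succp_ge_of_good hd (Bd d) m G hG hgood hm hmB
      have h2 := succp_mono (d := d) hs G
      refine le_trans ?_ (h1.trans h2)
      have hB : (1 : ℝ) ≤ Bd d := by
        have : 1 ≤ Bd d := by unfold Bd; omega
        exact_mod_cast this
      refine pow_le_pow_of_le_one (by positivity) ?_ hmB
      rw [div_le_one (by positivity)]
      have : (1 : ℝ) ≤ 2 ^ (Bd d) := one_le_pow₀ (by norm_num)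
      nlinarith
    · push Not at hmB
      have hBdef : Bd d = Kd d + d + 1 := rfl
      have hreg : ¬ ∀ v, G.degree v = d := by
        intro h
        rw [(uns_eq_empty_iff hG).2 h, Finset.card_empty] at hm
        omega
      obtain ⟨s', rfl⟩ : ∃ s', s = s' + 1 := ⟨s - 1, by omega⟩
      rw [succp_succ]
      have havc : ∀ v ∈ mins G, (avail d G v).card = m - 1 := by
        intro v hv
        have hvd := mins_degree_lt hG hreg hv
        rw [avail_eq hG hvd, Finset.card_erase_of_mem (mem_uns.2 hvd), hm]
      apply le_step hreg
      · intro v hv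
        have hvd := mins_degree_lt hG hreg hv
        rw [← Finset.card_powersetCard, mul_comm, ← nsmul_eq_mul]
        apply Finset.card_nsmul_le_sum
        intro S hS
        have h1 := card_uns_star_le hvd hS
        have h2 := card_uns_star_ge hvd hS
        exact ih _ (by omega) _ (valid_star hG hvd hS) rfl (by omega) s' (by omega)
      · intro v hv
        apply Nat.choose_pos
        rw [havc v hv]
        omega

end Pool.Agent.Helper49.Star
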