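import Mathlib
import Pool.Agent.Helper49.StarEnd

set_option autoImplicit false
open Classical
open Finset

namespace Pool.Agent.Helper49.Star

variable {n : ℕ}

/-- number of `r`-subsets avoiding a given element -/
theorem card_filter_notMem {α : Type*} [DecidableEq α] (W : Finset α) {w : α} (hw : w ∈ W) (r : ℕ) :
    ((W.powersetCard r).filter (fun S => w ∉ S)).card = (W.card - 1).choose r := by
  have : (W.powersetCard r).filter (fun S => w ∉ S) = (W.erase w).powersetCard r := by
    ext S
    simp only [Finset.mem_filter, Finset.mem_powersetCard]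
    constructor
    · rintro ⟨⟨h1, h2⟩, h3⟩
      refine ⟨fun x hx => Finset.mem_erase.2 ⟨?_, h1 hx⟩, h2⟩
      rintro rfl
      exact h3 hx
    · rintro ⟨h1, h2⟩
      exact ⟨⟨h1.trans (Finset.erase_subset _ _), h2⟩, fun h =>
        (Finset.mem_erase.1 (h1 h)).1 rfl⟩
  rw [this, Finset.card_powersetCard, Finset.card_erase_of_mem hw]

theorem choose_pred_real {u r : ℕ} (hu : 0 < u) (hr : r ≤ u) :
    (((u - 1).choose r : ℕ) : ℝ) = ((u.choose r : ℕ) : ℝ) * (1 - (r : ℝ) / u) := by
  obtain ⟨m, rfl⟩ : ∃ m, u = m + 1 := ⟨u - 1, by omega⟩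
  have h := Nat.choose_mul_succ_eq m r
  have h2 : ((m.choose r : ℕ) : ℝ) * ((m : ℝ) + 1)
      = (((m + 1).choose r : ℕ) : ℝ) * ((m : ℝ) + 1 - r) := by
    have h3 := congrArg (fun x : ℕ => (x : ℝ)) h
    push_cast [Nat.cast_sub hr] at h3
    exact h3
  have hm : ((m : ℝ) + 1) ≠ 0 := by positivity
  have e : m + 1 - 1 = m := by omega
  rw [e]
  push_cast
  field_simp
  linarith

/-- averaging over uniformly random subsets -/
theorem sum_powersetCard_sum {α : Type*} [DecidableEq α] (W : Finset α) (r : ℕ) (hr : r ≤ W.card)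
    (a b : α → ℝ) :
    ∑ S ∈ W.powersetCard r, ∑ w ∈ W, (if w ∈ S then a w else b w)
      = ((W.card.choose r : ℕ) : ℝ) *
        ∑ w ∈ W, ((r : ℝ) / W.card * a w + (1 - (r : ℝ) / W.card) * b w) := by
  rw [Finset.sum_comm, Finset.mul_sum]
  apply Finset.sum_congr rfl
  intro w hw
  have hpos : 0 < W.card := Finset.card_pos.2 ⟨w, hw⟩
  rw [Finset.sum_ite, Finset.sum_const, Finset.sum_const, nsmul_eq_mul, nsmul_eq_mul]
  have h1 := card_filter_notMem W hw r
  have h2 : ((W.powersetCard r).filter (fun S => w ∈ S)).card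
      + ((W.powersetCard r).filter (fun S => w ∉ S)).card = W.card.choose r := by
    rw [Finset.card_filter_add_card_filter_not, Finset.card_powersetCard]
  have h3 := choose_pred_real hpos hr
  rw [h1] at h2 ⊢
  have h4 : ((((W.powersetCard r).filter (fun S => w ∈ S)).card : ℕ) : ℝ)
      = ((W.card.choose r : ℕ) : ℝ) - (((W.card - 1).choose r : ℕ) : ℝ) := by
    rw [← h2]; push_cast; ring
  rw [h4, h3]
  ring

/-- `exp κ - 1` -/
noncomputable def cc (κ : ℝ) : ℝ := Real.exp κ - 1

/-- the exponential weight -/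
noncomputable def ew (κ lam : ℝ) (N : ℕ) : ℝ := Real.exp (κ * N - cc κ * lam)

theorem ew_pos (κ lam : ℝ) (N : ℕ) : 0 < ew κ lam N := Real.exp_pos _

theorem cc_nonneg {κ : ℝ} (h : 0 ≤ κ) : 0 ≤ cc κ := by
  unfold cc
  linarith [Real.one_le_exp h]

theorem ew_step (κ lam p : ℝ) (N : ℕ) :
    (1 - p) * ew κ (lam + p) N + p * ew κ (lam + p) (N + 1)
      = ew κ lam N * ((1 + cc κ * p) * Real.exp (-(cc κ * p))) := by
  unfold ew
  have h1 : Real.exp (κ * N - cc κ * (lam + p))
      = Real.exp (κ * N - cc κ * lam) * Real.exp (-(cc κ * p)) := by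
    rw [← Real.exp_add]; ring_nf
  have h2 : Real.exp (κ * ((N + 1 : ℕ) : ℝ) - cc κ * (lam + p))
      = Real.exp (κ * N - cc κ * lam) * Real.exp (-(cc κ * p)) * (cc κ + 1) := by
    have : cc κ + 1 = Real.exp κ := by unfold cc; ring
    rw [this, ← Real.exp_add, ← Real.exp_add]
    push_cast
    ring_nf
  rw [h1, h2]
  ring

theorem g_le_one {y : ℝ} : (1 + y) * Real.exp (-y) ≤ 1 := by
  have h1 := Real.add_one_le_exp y
  have h2 := Real.exp_pos (-y)
  calc (1 + y) * Real.exp (-y) ≤ Real.exp y * Real.exp (-y) := by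
        apply mul_le_mul_of_nonneg_right _ h2.le
        linarith
    _ = 1 := by rw [← Real.exp_add]; simp

theorem g_ge {y : ℝ} (hy : 0 ≤ y) : 1 - y ^ 2 ≤ (1 + y) * Real.exp (-y) := by
  have h1 := Real.add_one_le_exp (-y)
  nlinarith

theorem ew_le {κ lam : ℝ} (hκ : 0 ≤ κ) (hlam : 0 ≤ lam) {N d : ℕ} (hN : N ≤ d) :
    ew κ lam N ≤ Real.exp (κ * d) := by
  unfold ew
  apply Real.exp_le_exp.2
  have h1 := mul_nonneg (cc_nonneg hκ) hlam
  have h2 : κ * (N : ℝ) ≤ κ * d := by
    apply mul_le_mul_of_nonneg_left _ hκ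
    exact_mod_cast hN
  linarith

/-- the weighted sum used to control the minimum degree -/
noncomputable def Xsum (d : ℕ) (η lam : ℝ) (G : SimpleGraph (Fin n)) : ℝ :=
  ∑ u ∈ uns d G, ew η lam (G.degree u)

/-- the potential sum -/
noncomputable def Psum (d : ℕ) (φ : ℝ → ℕ → ℝ) (lam : ℝ) (G : SimpleGraph (Fin n)) : ℝ :=
  ∑ u ∈ uns d G, (1 - φ lam (G.degree u))

/-- bounding a sum over the new unsaturated set by a sum over the old one -/
theorem sum_uns_star_le {d : ℕ} {G : SimpleGraph (Fin n)} (hG : Valid d G) {v : Fin n}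
    (hv : G.degree v < d) {S : Finset (Fin n)}
    (hS : S ∈ (avail d G v).powersetCard (d - G.degree v)) (f : ℕ → ℝ) (hf : 0 ≤ f d) :
    ∑ u ∈ uns d (star G v S), f ((star G v S).degree u)
      ≤ ∑ w ∈ avail d G v, (if w ∈ S then f (G.degree w + 1) else f (G.degree w)) := by
  have hav := avail_eq hG hv
  have hsub := uns_star_subset hv hS
  have hSs := (Finset.mem_powersetCard.1 hS).1
  rw [← hav] at hsub
  rw [← Finset.sum_sdiff hsub]
  have h1 : ∑ u ∈ uns d (star G v S), f ((star G v S).degree u)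
      = ∑ w ∈ uns d (star G v S), (if w ∈ S then f (G.degree w + 1) else f (G.degree w)) := by
    apply Finset.sum_congr rfl
    intro w hw
    have hwv : w ≠ v := (mem_avail.1 (hsub hw)).1
    rw [degree_star_other hSs hwv]
    split_ifs <;> simp
  rw [h1]
  have h2 : 0 ≤ ∑ w ∈ avail d G v \ uns d (star G v S),
      (if w ∈ S then f (G.degree w + 1) else f (G.degree w)) := by
    apply Finset.sum_nonneg
    intro w hw
    rw [Finset.mem_sdiff, mem_uns] at hw
    have hw1 := mem_avail.1 hw.1
    rw [degree_star_other hSs hw1.1] at hw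
    by_cases hwS : w ∈ S
    · rw [if_pos hwS] at hw ⊢
      have : G.degree w + 1 = d := by omega
      rw [this]; exact hf
    · rw [if_neg hwS] at hw
      omega
  linarith

/-- the change of `Xsum` in one step depends on `S` in a bounded way -/
theorem Xsum_star_close {d : ℕ} {G : SimpleGraph (Fin n)} (hG : Valid d G) {v : Fin n}
    (hv : G.degree v < d) {S : Finset (Fin n)}
    (hS : S ∈ (avail d G v).powersetCard (d - G.degree v)) {η lam : ℝ} (hη : 0 ≤ η)
    (hlam : 0 ≤ lam) :
    |Xsum d η lam (star G v S) - ∑ w ∈ avail d G v, ew η lam (G.degree w)|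
      ≤ d * Real.exp (η * d) := by
  have hav := avail_eq hG hv
  have hsub := uns_star_subset hv hS
  have hSs := (Finset.mem_powersetCard.1 hS).1
  have hSc := (Finset.mem_powersetCard.1 hS).2
  rw [← hav] at hsub
  have h1 : Xsum d η lam (star G v S)
      = ∑ w ∈ avail d G v, (if w ∈ uns d (star G v S) then
          ew η lam ((star G v S).degree w) else 0) := by
    rw [Xsum, ← Finset.sum_filter]
    congr 1
    ext w
    simp only [Finset.mem_filter]
    constructor
    · intro h; exact ⟨hsub h, h⟩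
    · rintro ⟨-, h⟩; exact h
  rw [h1, ← Finset.sum_sub_distrib]
  refine (Finset.abs_sum_le_sum_abs _ _).trans ?_
  have h2 : ∀ w ∈ avail d G v, |(if w ∈ uns d (star G v S) then
          ew η lam ((star G v S).degree w) else 0) - ew η lam (G.degree w)|
        ≤ if w ∈ S then Real.exp (η * d) else 0 := by
    intro w hw
    have hw1 := mem_avail.1 hw
    by_cases hwS : w ∈ S
    · rw [if_pos hwS]
      have e1 : ew η lam (G.degree w) ≤ Real.exp (η * d) := ew_le hη hlam hw1.2.1.le
      have e2 := ew_pos η lam (G.degree w)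
      split_ifs with hu
      · have e3 : ew η lam ((star G v S).degree w) ≤ Real.exp (η * d) :=
          ew_le hη hlam (mem_uns.1 hu).le
        have e4 := ew_pos η lam ((star G v S).degree w)
        rw [abs_le]; constructor <;> linarith
      · rw [abs_le]; constructor <;> linarith [Real.exp_pos (η * d)]
    · rw [if_neg hwS]
      have hu : w ∈ uns d (star G v S) := by
        rw [mem_uns, degree_star_other hSs hw1.1, if_neg hwS]
        exact hw1.2.1
      rw [if_pos hu, degree_star_other hSs hw1.1, if_neg hwS]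
      simp
  refine (Finset.sum_le_sum h2).trans ?_
  rw [← Finset.sum_filter, Finset.sum_const, nsmul_eq_mul]
  apply mul_le_mul_of_nonneg_right _ (Real.exp_pos _).le
  have h3 : (avail d G v).filter (fun w => w ∈ S) ⊆ S := fun w hw =>
    (Finset.mem_filter.1 hw).2
  have h4 := Finset.card_le_card h3
  have : ((avail d G v).filter (fun w => w ∈ S)).card ≤ d := by omega
  exact_mod_cast this

/-- the full potential -/
noncomputable def Phi (d n tstar : ℕ) (φ : ℝ → ℕ → ℝ) (cost : ℕ → ℝ) (K0 K2 : ℝ)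
    (t : ℕ) (G : SimpleGraph (Fin n)) (lam mu : ℝ) : ℝ :=
  (((n : ℝ) - t) - Psum d φ lam G) / n - K0 - (∑ s ∈ Finset.Ico t tstar, cost s) / n
    - K2 / n ^ 2 * ((tstar : ℝ) - t) - mu ^ 2 / n ^ 2

end Pool.Agent.Helper49.Star
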