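import Mathlib
import Pool.Agent.Helper49.StarPot

set_option autoImplicit false
open Classical
open Finset

namespace Pool.Agent.Helper49.Star

variable {n : ℕ}

/-- the average of `Xsum` after one step with centre `v` -/
noncomputable def Xbar (d : ℕ) (η lam : ℝ) (G : SimpleGraph (Fin n)) (v : Fin n) : ℝ :=
  (∑ S ∈ (avail d G v).powersetCard (d - G.degree v), Xsum d η lam (star G v S)) /
    ((avail d G v).card.choose (d - G.degree v) : ℕ)

theorem Xbar_le {d : ℕ} {G : SimpleGraph (Fin n)} (hG : Valid d G) {v : Fin n}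
    (hv : G.degree v < d) (hr : d - G.degree v ≤ (avail d G v).card)
    {η lam p : ℝ} (hη : 0 ≤ η)
    (hp : p = ((d - G.degree v : ℕ) : ℝ) / (avail d G v).card) :
    Xbar d η (lam + p) G v ≤ Xsum d η lam G := by
  have hC : (0 : ℝ) < ((avail d G v).card.choose (d - G.degree v) : ℕ) := by
    exact_mod_cast Nat.choose_pos hr
  unfold Xbar
  rw [div_le_iff₀ hC]
  have h1 : ∑ S ∈ (avail d G v).powersetCard (d - G.degree v), Xsum d η (lam + p) (star G v S)
      ≤ ∑ S ∈ (avail d G v).powersetCard (d - G.degree v), ∑ w ∈ avail d G v,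
        (if w ∈ S then ew η (lam + p) (G.degree w + 1) else ew η (lam + p) (G.degree w)) := by
    apply Finset.sum_le_sum
    intro S hS
    exact sum_uns_star_le hG hv hS (fun N => ew η (lam + p) N) (ew_pos _ _ _).le
  refine h1.trans ?_
  rw [sum_powersetCard_sum _ _ hr, mul_comm]
  apply mul_le_mul_of_nonneg_right _ hC.le
  have hav := avail_eq hG hv
  have h2 : ∑ w ∈ avail d G v, ew η lam (G.degree w) ≤ Xsum d η lam G := by
    unfold Xsum
    apply Finset.sum_le_sum_of_subset_of_nonneg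
    · rw [hav]; exact Finset.erase_subset _ _
    · intro i _ _; exact (ew_pos _ _ _).le
  refine le_trans ?_ h2
  apply Finset.sum_le_sum
  intro w _
  rw [← hp]
  have h3 := ew_step η lam p (G.degree w)
  have h4 : ew η lam (G.degree w) * ((1 + cc η * p) * Real.exp (-(cc η * p)))
      ≤ ew η lam (G.degree w) * 1 :=
    mul_le_mul_of_nonneg_left g_le_one (ew_pos _ _ _).le
  linarith

/-- one step of the potential for a fixed centre -/
theorem phi_step {d tstar : ℕ} {φ : ℝ → ℕ → ℝ} {cost : ℕ → ℝ} {K0 K2 K η : ℝ}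
    {G : SimpleGraph (Fin n)} (hG : Valid d G) {v : Fin n} (hv : G.degree v < d)
    (hn : 0 < n) (hη : 0 ≤ η)
    {t : ℕ} (ht : t < tstar) {lam mu p : ℝ} (hlam : 0 ≤ lam)
    (hr : d - G.degree v ≤ (avail d G v).card)
    (hp : p = ((d - G.degree v : ℕ) : ℝ) / (avail d G v).card)
    (hφ1 : ∀ l N, 0 ≤ l → N ≤ d → φ l N ≤ 1)
    (hφ2 : ∀ l q N, 0 ≤ l → 0 ≤ q → q ≤ 1 → N + 1 ≤ d →
      φ l N - K * q ^ 2 ≤ (1 - q) * φ (l + q) N + q * φ (l + q) (N + 1))
    (hcost : φ lam (G.degree v) ≤ cost t)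
    (hK2 : (avail d G v).card * (K * p ^ 2) * n + (2 * (d * Real.exp (η * d))) ^ 2 ≤ K2) :
    Phi d n tstar φ cost K0 K2 t G lam mu * ((avail d G v).card.choose (d - G.degree v) : ℕ) ≤
      ∑ S ∈ (avail d G v).powersetCard (d - G.degree v),
        Phi d n tstar φ cost K0 K2 (t + 1) (star G v S) (lam + p)
          (mu + (Xsum d η (lam + p) (star G v S) - Xbar d η (lam + p) G v)) := by
  set C : ℝ := (((avail d G v).card.choose (d - G.degree v) : ℕ) : ℝ) with hCdef
  set P := (avail d G v).powersetCard (d - G.degree v) with hPdef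
  have hC : (0 : ℝ) < C := by
    rw [hCdef]; exact_mod_cast Nat.choose_pos hr
  have hPc : (P.card : ℝ) = C := by rw [hPdef, Finset.card_powersetCard, hCdef]
  have hnR : (0 : ℝ) < n := by exact_mod_cast hn
  have hup : 0 < (avail d G v).card := by omega
  have huR : (0 : ℝ) < (avail d G v).card := by exact_mod_cast hup
  have hp0 : 0 ≤ p := by rw [hp]; positivity
  have hp1 : p ≤ 1 := by
    rw [hp, div_le_one huR]; exact_mod_cast hr
  have hav := avail_eq hG hv
  -- the potential sum
  have hPs : ∑ S ∈ P, Psum d φ (lam + p) (star G v S)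
      ≤ C * (Psum d φ lam G - (1 - φ lam (G.degree v)) +
          (avail d G v).card * (K * p ^ 2)) := by
    have h1 : ∑ S ∈ P, Psum d φ (lam + p) (star G v S)
        ≤ ∑ S ∈ P, ∑ w ∈ avail d G v,
          (if w ∈ S then (1 - φ (lam + p) (G.degree w + 1))
            else (1 - φ (lam + p) (G.degree w))) := by
      apply Finset.sum_le_sum
      intro S hS
      refine sum_uns_star_le hG hv hS (fun N => 1 - φ (lam + p) N) ?_
      have := hφ1 (lam + p) d (by linarith) le_rfl
      linarith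
    refine h1.trans ?_
    rw [hPdef, sum_powersetCard_sum _ _ hr, ← hCdef]
    apply mul_le_mul_of_nonneg_left _ hC.le
    have h2 : ∑ w ∈ avail d G v, (1 - φ lam (G.degree w))
        = Psum d φ lam G - (1 - φ lam (G.degree v)) := by
      unfold Psum
      rw [hav, ← Finset.sum_erase_add _ _ (mem_uns.2 hv)]
      ring
    rw [← h2]
    have h3 : ∑ w ∈ avail d G v, (1 - φ lam (G.degree w)) + (avail d G v).card * (K * p ^ 2)
        = ∑ w ∈ avail d G v, ((1 - φ lam (G.degree w)) + K * p ^ 2) := by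
      rw [Finset.sum_add_distrib, Finset.sum_const, nsmul_eq_mul]
    rw [h3]
    apply Finset.sum_le_sum
    intro w hw
    rw [← hp]
    have h4 := hφ2 lam p (G.degree w) hlam hp0 hp1 (mem_avail.1 hw).2.1
    linarith
  -- the quadratic term
  set Xb := Xbar d η (lam + p) G v with hXb
  have hXbC : ∑ S ∈ P, Xsum d η (lam + p) (star G v S) = C * Xb := by
    rw [hXb, Xbar, ← hPdef, ← hCdef]
    field_simp
  set X0 := ∑ w ∈ avail d G v, ew η (lam + p) (G.degree w) with hX0
  set D0 : ℝ := d * Real.exp (η * d) with hD0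
  have hD0n : 0 ≤ D0 := by rw [hD0]; positivity
  have hclose : ∀ S ∈ P, |Xsum d η (lam + p) (star G v S) - X0| ≤ D0 := fun S hS =>
    Xsum_star_close hG hv hS hη (by linarith)
  have hXbX0 : |Xb - X0| ≤ D0 := by
    have h5 : C * (Xb - X0) = ∑ S ∈ P, (Xsum d η (lam + p) (star G v S) - X0) := by
      rw [Finset.sum_sub_distrib, hXbC, Finset.sum_const, nsmul_eq_mul, hPc]; ring
    have h6 : |C * (Xb - X0)| ≤ C * D0 := by
      rw [h5]
      refine (Finset.abs_sum_le_sum_abs _ _).trans ?_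
      refine (Finset.sum_le_sum hclose).trans ?_
      rw [Finset.sum_const, nsmul_eq_mul, hPc]
    rw [abs_mul, abs_of_pos hC] at h6
    exact le_of_mul_le_mul_left h6 hC
  have hmu : ∑ S ∈ P, (mu + (Xsum d η (lam + p) (star G v S) - Xb)) ^ 2
      ≤ C * (mu ^ 2 + (2 * D0) ^ 2) := by
    have h7 : ∀ S ∈ P, (mu + (Xsum d η (lam + p) (star G v S) - Xb)) ^ 2
        ≤ mu ^ 2 + (2 * D0) ^ 2 + 2 * mu * (Xsum d η (lam + p) (star G v S) - Xb) := by
      intro S hS
      have h8 := abs_le.1 (hclose S hS)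
      have h9 := abs_le.1 hXbX0
      have h10 : (Xsum d η (lam + p) (star G v S) - Xb) ^ 2 ≤ (2 * D0) ^ 2 := by
        apply sq_le_sq'
        · linarith
        · linarith
      nlinarith
    refine (Finset.sum_le_sum h7).trans ?_
    rw [Finset.sum_add_distrib, ← Finset.mul_sum, Finset.sum_sub_distrib, hXbC, Finset.sum_const,
      Finset.sum_const, nsmul_eq_mul, nsmul_eq_mul, hPc]
    apply le_of_eq
    ring
  -- assemble
  have hsum : ∑ S ∈ P, Phi d n tstar φ cost K0 K2 (t + 1) (star G v S) (lam + p)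
          (mu + (Xsum d η (lam + p) (star G v S) - Xb))
      = C * (((n : ℝ) - (t + 1)) / n - K0 - (∑ s ∈ Finset.Ico (t + 1) tstar, cost s) / n
          - K2 / n ^ 2 * ((tstar : ℝ) - (t + 1)))
        - (∑ S ∈ P, Psum d φ (lam + p) (star G v S)) / n
        - (∑ S ∈ P, (mu + (Xsum d η (lam + p) (star G v S) - Xb)) ^ 2) / n ^ 2 := by
    obtain ⟨A, hA⟩ : ∃ A : ℝ, A = ((n : ℝ) - (t + 1)) / n - K0
        - (∑ s ∈ Finset.Ico (t + 1) tstar, cost s) / n
          - K2 / n ^ 2 * ((tstar : ℝ) - (t + 1)) := ⟨_, rfl⟩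
    have hS : ∀ S ∈ P, Phi d n tstar φ cost K0 K2 (t + 1) (star G v S) (lam + p)
          (mu + (Xsum d η (lam + p) (star G v S) - Xb))
        = A - Psum d φ (lam + p) (star G v S) / n
          - (mu + (Xsum d η (lam + p) (star G v S) - Xb)) ^ 2 / n ^ 2 := by
      intro S _
      rw [hA]
      unfold Phi
      push_cast
      ring
    rw [Finset.sum_congr rfl hS, Finset.sum_sub_distrib, Finset.sum_sub_distrib,
      Finset.sum_const, nsmul_eq_mul, hPc, ← Finset.sum_div, ← Finset.sum_div, ← hA]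
  rw [hsum]
  have hico : ∑ s ∈ Finset.Ico t tstar, cost s
      = cost t + ∑ s ∈ Finset.Ico (t + 1) tstar, cost s :=
    Finset.sum_eq_sum_Ico_succ_bot ht _
  have e1 : (∑ S ∈ P, Psum d φ (lam + p) (star G v S)) / n
      ≤ C * (Psum d φ lam G - (1 - φ lam (G.degree v)) +
          (avail d G v).card * (K * p ^ 2)) / n := div_le_div_of_nonneg_right hPs hnR.le
  have e2 : (∑ S ∈ P, (mu + (Xsum d η (lam + p) (star G v S) - Xb)) ^ 2) / n ^ 2
      ≤ C * (mu ^ 2 + (2 * D0) ^ 2) / n ^ 2 :=
    div_le_div_of_nonneg_right hmu (by positivity)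
  have e3 : Phi d n tstar φ cost K0 K2 t G lam mu * C + 
      C * ((cost t - φ lam (G.degree v)) / n + (K2 - ((avail d G v).card * (K * p ^ 2) * n
        + (2 * D0) ^ 2)) / n ^ 2)
      = C * (((n : ℝ) - (t + 1)) / n - K0 - (∑ s ∈ Finset.Ico (t + 1) tstar, cost s) / n
          - K2 / n ^ 2 * ((tstar : ℝ) - (t + 1)))
        - C * (Psum d φ lam G - (1 - φ lam (G.degree v)) +
          (avail d G v).card * (K * p ^ 2)) / n
        - C * (mu ^ 2 + (2 * D0) ^ 2) / n ^ 2 := by
    unfold Phi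
    rw [hico]
    field_simp
    ring
  have e4 : 0 ≤ C * ((cost t - φ lam (G.degree v)) / n + (K2 - ((avail d G v).card * (K * p ^ 2) * n
        + (2 * D0) ^ 2)) / n ^ 2) := by
    apply mul_nonneg hC.le
    apply add_nonneg
    · exact div_nonneg (by linarith) hnR.le
    · exact div_nonneg (by linarith) (by positivity)
  linarith

end Pool.Agent.Helper49.Star
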