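import Mathlib
import Pool.Agent.Helper49.StarStep

set_option autoImplicit false
open Classical
open Finset

namespace Pool.Agent.Helper49.Star

variable {n : ℕ}

theorem ew_mono {κ lam : ℝ} (hκ : 0 ≤ κ) {N N' : ℕ} (h : N ≤ N') : ew κ lam N ≤ ew κ lam N' := by
  unfold ew
  apply Real.exp_le_exp.2
  have : κ * (N : ℝ) ≤ κ * N' := by
    apply mul_le_mul_of_nonneg_left _ hκ
    exact_mod_cast h
  linarith

/-- the drift estimate for the time change -/
theorem drift {d t nn lam p E k u : ℝ} (hnt : 1 ≤ nn - t) (hn : 0 < nn) (ht : 0 ≤ t)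
    (hd : 0 ≤ d) (hE : 0 ≤ E)
    (hu : 0 < u) (hu2 : u ≤ nn - t) (hkd : k ≤ d) (hp : p = (d - k) / u)
    (hlow : d * t / nn - E ≤ lam) (hk : lam ≤ d → k ≤ lam + E) :
    d * (t + 1) / nn - E ≤ lam + p := by
  have hp0 : 0 ≤ p := by rw [hp]; apply div_nonneg <;> linarith
  by_cases hl : lam ≤ d
  · have h1 := hk hl
    have hx : 0 < nn - t := by linarith
    have h2 : (d - lam - E) / (nn - t) ≤ p := by
      calc (d - lam - E) / (nn - t) ≤ (d - k) / (nn - t) :=
            div_le_div_of_nonneg_right (by linarith) hx.le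
        _ ≤ (d - k) / u := div_le_div_of_nonneg_left (by linarith) hu hu2
        _ = p := hp.symm
    have h3 : 0 ≤ 1 - 1 / (nn - t) := by
      rw [sub_nonneg, div_le_one hx]; exact hnt
    have h4 : (d * t / nn - E) * (1 - 1 / (nn - t)) ≤ lam * (1 - 1 / (nn - t)) :=
      mul_le_mul_of_nonneg_right hlow h3
    have h5 : lam * (1 - 1 / (nn - t)) + (d - E) / (nn - t) = lam + (d - lam - E) / (nn - t) := by
      field_simp
      ring
    have h6 : (d * t / nn - E) * (1 - 1 / (nn - t)) + (d - E) / (nn - t)
        = d * (t + 1) / nn - E := by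
      field_simp
      ring
    linarith
  · have h7 : d * (t + 1) / nn ≤ d := by
      rw [div_le_iff₀ hn]
      nlinarith
    linarith

theorem Psum_nonneg {d : ℕ} {φ : ℝ → ℕ → ℝ} {lam : ℝ} {G : SimpleGraph (Fin n)}
    (hlam : 0 ≤ lam) (hφ1 : ∀ l N, 0 ≤ l → N ≤ d → φ l N ≤ 1) : 0 ≤ Psum d φ lam G := by
  unfold Psum
  apply Finset.sum_nonneg
  intro u hu
  have := hφ1 lam (G.degree u) hlam (mem_uns.1 hu).le
  linarith

theorem main_induction {d tstar e : ℕ} {Xr η E κ₁ K K2 : ℝ} {φ : ℝ → ℕ → ℝ} {cost : ℕ → ℝ}
    (hd : Even (d * n)) (hn : 0 < n)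
    (h2e : tstar + 2 * e ≤ n) (hKd : tstar + e + d + Kd d + 1 ≤ n)
    (hX : (n : ℝ) ≤ Xr * ((n : ℝ) - tstar)) (hXr : 0 < Xr)
    (hη : 0 ≤ η) (hE0 : 0 ≤ E)
    (hE : ∀ (l : ℝ) (k : ℕ), 0 ≤ l → l ≤ d → k ≤ d → ew η l k ≤ 4 * Xr → (k : ℝ) ≤ l + E)
    (hφ1 : ∀ l N, 0 ≤ l → N ≤ d → φ l N ≤ 1)
    (hφ2 : ∀ l q N, 0 ≤ l → 0 ≤ q → q ≤ 1 → N + 1 ≤ d →
      φ l N - K * q ^ 2 ≤ (1 - q) * φ (l + q) N + q * φ (l + q) (N + 1))
    (hcost0 : ∀ t, 0 ≤ cost t)
    (hcost : ∀ t < tstar, ∀ (l : ℝ) (k : ℕ), 0 ≤ l → k ≤ d → (d : ℝ) * t / n - E ≤ l →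
      ew η l k ≤ 4 * ((n : ℝ) / ((n : ℝ) - t)) → φ l k ≤ cost t)
    (hκ : 0 ≤ κ₁)
    (hterm : ∀ (l : ℝ) (N : ℕ), 0 ≤ l → N ≤ d → (d : ℝ) * tstar / n - E ≤ l →
      φ l N * ((n : ℝ) - tstar) ≤ κ₁ * n)
    (hK0 : 0 ≤ K)
    (hK2 : K * d ^ 2 * (2 * Xr) + (2 * (d * Real.exp (η * d))) ^ 2 ≤ K2) :
    ∀ j t : ℕ, t ≤ tstar → tstar - t = j → ∀ (G : SimpleGraph (Fin n)) (lam mu : ℝ),
      Valid d G → (uns d G).card + t ≤ n → Kd d ≤ (uns d G).card → 0 ≤ lam →
      (d : ℝ) * t / n - E ≤ lam → Xsum d η lam G ≤ n + mu →
      cd d * Phi d n tstar φ cost ((e : ℝ) / n + κ₁) K2 t G lam mu ≤ succp d (n - e - t) G := by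
  have hnR : (0 : ℝ) < n := by exact_mod_cast hn
  have hK2n : 0 ≤ K2 := le_trans (by positivity) hK2
  intro j
  induction j with
  | zero =>
    intro t ht htj G lam mu hG hm hKm hlam hlow hXs
    have htt : t = tstar := by omega
    subst htt
    have hPn := Psum_nonneg (G := G) hlam hφ1
    have hPhi1 : Phi d n t φ cost ((e : ℝ) / n + κ₁) K2 t G lam mu
        = (((n : ℝ) - t) - Psum d φ lam G) / n - ((e : ℝ) / n + κ₁) - mu ^ 2 / n ^ 2 := by
      unfold Phi
      simp
    by_cases hR : (uns d G).card + t + e ≤ n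
    · have h1 := succp_ge hd _ G hG rfl hKm (n - e - t) (by omega)
      refine le_trans ?_ h1
      have h2 : Phi d n t φ cost ((e : ℝ) / n + κ₁) K2 t G lam mu ≤ 1 := by
        rw [hPhi1]
        have h3 : (((n : ℝ) - t) - Psum d φ lam G) / n ≤ 1 := by
          rw [div_le_one hnR]
          have : (0 : ℝ) ≤ t := by positivity
          linarith
        have h4 : 0 ≤ (e : ℝ) / n := by positivity
        have h5 : 0 ≤ mu ^ 2 / (n : ℝ) ^ 2 := by positivity
        linarith
      have := mul_le_mul_of_nonneg_left h2 (cd_pos d).le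
      linarith
    · push Not at hR
      have hle0 : Phi d n t φ cost ((e : ℝ) / n + κ₁) K2 t G lam mu ≤ 0 := by
        rw [hPhi1]
        have htn : (0 : ℝ) < (n : ℝ) - t := by
          have : (t : ℝ) < n := by exact_mod_cast (by omega : t < n)
          linarith
        have hsumφ : ∑ u ∈ uns d G, φ lam (G.degree u) ≤ κ₁ * n := by
          have h6 : ∀ u ∈ uns d G, φ lam (G.degree u) ≤ κ₁ * n / ((n : ℝ) - t) := by
            intro u hu
            rw [le_div_iff₀ htn]
            exact hterm lam _ hlam (mem_uns.1 hu).le hlow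
          refine (Finset.sum_le_sum h6).trans ?_
          rw [Finset.sum_const, nsmul_eq_mul, ← mul_div_assoc, div_le_iff₀ htn]
          have h7 : ((uns d G).card : ℝ) ≤ (n : ℝ) - t := by
            have : ((uns d G).card : ℝ) + t ≤ n := by exact_mod_cast hm
            linarith
          have h8 : 0 ≤ κ₁ * n := by positivity
          nlinarith
        have hPs : Psum d φ lam G = (uns d G).card - ∑ u ∈ uns d G, φ lam (G.degree u) := by
          unfold Psum
          rw [Finset.sum_sub_distrib]
          simp
        have hR' : (n : ℝ) ≤ (uns d G).card + t + e := by exact_mod_cast hR.le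
        have h9 : (((n : ℝ) - t) - Psum d φ lam G) / n ≤ (e : ℝ) / n + κ₁ := by
          rw [div_le_iff₀ hnR, add_mul, div_mul_cancel₀ _ hnR.ne']
          rw [hPs]
          linarith
        have h5 : 0 ≤ mu ^ 2 / (n : ℝ) ^ 2 := by positivity
        linarith
      have h10 := mul_nonpos_of_nonneg_of_nonpos (cd_pos d).le hle0
      exact h10.trans (succp_nonneg _ _ _)
  | succ j ih =>
    intro t ht htj G lam mu hG hm hKm hlam hlow hXs
    have htlt : t < tstar := by omega
    have hPn := Psum_nonneg (G := G) hlam hφ1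
    have hcs : 0 ≤ (∑ s ∈ Finset.Ico t tstar, cost s) / (n : ℝ) :=
      div_nonneg (Finset.sum_nonneg fun s _ => hcost0 s) hnR.le
    have htsr : (0 : ℝ) ≤ (tstar : ℝ) - t := by
      have : (t : ℝ) ≤ tstar := by exact_mod_cast ht
      linarith
    have hk2t : 0 ≤ K2 / (n : ℝ) ^ 2 * ((tstar : ℝ) - t) := by positivity
    have hmain1 : (((n : ℝ) - t) - Psum d φ lam G) / n ≤ 1 := by
      rw [div_le_one hnR]
      have : (0 : ℝ) ≤ t := by positivity
      linarith
    have h4 : 0 ≤ (e : ℝ) / n := by positivity
    by_cases hR : (uns d G).card + t + e ≤ n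
    · have h1 := succp_ge hd _ G hG rfl hKm (n - e - t) (by omega)
      refine le_trans ?_ h1
      have h2 : Phi d n tstar φ cost ((e : ℝ) / n + κ₁) K2 t G lam mu ≤ 1 := by
        unfold Phi
        have h5 : 0 ≤ mu ^ 2 / (n : ℝ) ^ 2 := by positivity
        linarith
      have := mul_le_mul_of_nonneg_left h2 (cd_pos d).le
      linarith
    · push Not at hR
      by_cases hmu : (n : ℝ) < |mu|
      · have h2 : Phi d n tstar φ cost ((e : ℝ) / n + κ₁) K2 t G lam mu ≤ 0 := by
          unfold Phi
          have h5 : 1 ≤ mu ^ 2 / (n : ℝ) ^ 2 := by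
            rw [one_le_div (by positivity), ← sq_abs mu]
            exact pow_le_pow_left₀ hnR.le hmu.le 2
          linarith
        have h10 := mul_nonpos_of_nonneg_of_nonpos (cd_pos d).le h2
        exact h10.trans (succp_nonneg _ _ _)
      · push Not at hmu
        have hmu1 : mu ≤ n := (le_abs_self mu).trans hmu
        have hreg : ¬ ∀ v, G.degree v = d := by
          intro h
          rw [(uns_eq_empty_iff hG).2 h, Finset.card_empty] at hR
          omega
        have hnt : (1 : ℝ) ≤ (n : ℝ) - t := by
          have : (t : ℝ) + 1 ≤ n := by exact_mod_cast (by omega : t + 1 ≤ n)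
          linarith
        have hm' : ((uns d G).card : ℝ) + t ≤ n := by exact_mod_cast hm
        have hR' : (n : ℝ) + 1 ≤ (uns d G).card + t + e := by exact_mod_cast hR
        have h2e' : (tstar : ℝ) + 2 * e ≤ n := by exact_mod_cast h2e
        have htr : (t : ℝ) ≤ tstar := by exact_mod_cast ht
        have hmhalf : ((n : ℝ) - t) / 2 ≤ (uns d G).card := by linarith
        -- bound on the minimum degree
        have hewk : ∀ v ∈ mins G, ew η lam (G.degree v) ≤ 4 * ((n : ℝ) / ((n : ℝ) - t)) := by
          intro v hv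
          have h11 : ((uns d G).card : ℝ) * ew η lam (G.degree v) ≤ Xsum d η lam G := by
            unfold Xsum
            rw [← nsmul_eq_mul]
            apply Finset.card_nsmul_le_sum
            intro u _
            exact ew_mono hη (mem_mins.1 hv u)
          have h12 : ((uns d G).card : ℝ) * ew η lam (G.degree v) ≤ 2 * n := by linarith
          have h13 := ew_pos η lam (G.degree v)
          have h14 : ((n : ℝ) - t) / 2 * ew η lam (G.degree v) ≤ 2 * n := by
            refine le_trans ?_ h12
            exact mul_le_mul_of_nonneg_right hmhalf h13.le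
          rw [← mul_div_assoc, le_div_iff₀ (by linarith)]
          linarith
        have hXt : (n : ℝ) / ((n : ℝ) - t) ≤ Xr := by
          rw [div_le_iff₀ (by linarith)]
          refine hX.trans ?_
          apply mul_le_mul_of_nonneg_left _ hXr.le
          linarith
        have hs' : n - e - t = (n - e - (t + 1)) + 1 := by omega
        rw [hs', succp_succ]
        have havc : ∀ v ∈ mins G, (avail d G v).card = (uns d G).card - 1 := by
          intro v hv
          have hvd := mins_degree_lt hG hreg hv
          rw [avail_eq hG hvd, Finset.card_erase_of_mem (mem_uns.2 hvd)]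
        apply le_step hreg
        · intro v hv
          have hvd := mins_degree_lt hG hreg hv
          have hac := havc v hv
          have hupos : 0 < (avail d G v).card := by omega
          have huR : (0 : ℝ) < (avail d G v).card := by exact_mod_cast hupos
          obtain ⟨p, hp⟩ : ∃ p : ℝ, p = ((d - G.degree v : ℕ) : ℝ) / (avail d G v).card :=
            ⟨_, rfl⟩
          have hrcast : ((d - G.degree v : ℕ) : ℝ) = (d : ℝ) - G.degree v := by
            rw [Nat.cast_sub hvd.le]
          have hacR : ((avail d G v).card : ℝ) = (uns d G).card - 1 := by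
            rw [hac, Nat.cast_sub (by omega)]; simp
          have hp0 : 0 ≤ p := by rw [hp]; positivity
          have hlow' : (d : ℝ) * ((t + 1 : ℕ) : ℝ) / n - E ≤ lam + p := by
            push_cast
            refine drift (k := (G.degree v : ℝ)) (u := ((avail d G v).card : ℝ)) hnt hnR
              (by positivity) (by positivity) hE0 huR ?_ ?_ ?_ hlow ?_
            · rw [hacR]; linarith
            · exact_mod_cast hvd.le
            · rw [hp, hrcast]
            · intro hl
              refine hE lam _ hlam hl hvd.le ((hewk v hv).trans ?_)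
              linarith
          have hK2' : ((avail d G v).card : ℝ) * (K * p ^ 2) * n
              + (2 * (d * Real.exp (η * d))) ^ 2 ≤ K2 := by
            refine le_trans ?_ hK2
            have h20 : ((avail d G v).card : ℝ) * (K * p ^ 2) * n ≤ K * d ^ 2 * (2 * Xr) := by
              have h21 : ((avail d G v).card : ℝ) * (K * p ^ 2) * n
                  = K * ((d - G.degree v : ℕ) : ℝ) ^ 2 * (n / (avail d G v).card) := by
                rw [hp]; field_simp
              rw [h21]
              have h22 : (n : ℝ) / (avail d G v).card ≤ 2 * Xr := by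
                rw [div_le_iff₀ huR]
                have h23 : ((n : ℝ) - tstar) / 2 ≤ (avail d G v).card := by
                  rw [hacR]; linarith
                nlinarith
              have h24 : ((d - G.degree v : ℕ) : ℝ) ^ 2 ≤ (d : ℝ) ^ 2 := by
                apply pow_le_pow_left₀ (by positivity)
                rw [hrcast]
                have : (0 : ℝ) ≤ (G.degree v : ℝ) := by positivity
                linarith
              apply mul_le_mul _ h22 (by positivity) (by positivity)
              exact mul_le_mul_of_nonneg_left h24 hK0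
            linarith
          have hcc : φ lam (G.degree v) ≤ cost t :=
            hcost t htlt lam _ hlam hvd.le hlow (hewk v hv)
          have hr : d - G.degree v ≤ (avail d G v).card := by omega
          have hstep := phi_step (K0 := (e : ℝ) / n + κ₁) (mu := mu) hG hvd hn hη htlt hlam hr hp
            hφ1 hφ2 hcc hK2'
          have hstep' := mul_le_mul_of_nonneg_left hstep (cd_pos d).le
          rw [← mul_assoc, Finset.mul_sum] at hstep'
          refine hstep'.trans ?_
          apply Finset.sum_le_sum
          intro S hS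
          have h30 := card_uns_star_le hvd hS
          have h31 := card_uns_star_ge hvd hS
          have hXb := Xbar_le (lam := lam) hG hvd hr hη hp
          apply ih (t + 1) (by omega) (by omega) _ _ _ (valid_star hG hvd hS) (by omega) (by omega)
            (by linarith) hlow'
          linarith
        · intro v hv
          apply Nat.choose_pos
          rw [havc v hv]
          omega

end Pool.Agent.Helper49.Star
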