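import Mathlib
import Pool.Agent.Helper49.StarInd

set_option autoImplicit false
open Classical
open Finset

namespace Pool.Agent.Helper49.Star

theorem cc_lb {κ : ℝ} (h : 0 ≤ κ) : κ + κ ^ 2 / 2 ≤ cc κ := by
  unfold cc
  have := Real.quadratic_le_exp_of_nonneg h
  linarith

theorem cc_ub {κ : ℝ} (h : 0 ≤ κ) (h1 : κ ≤ 1) : cc κ ≤ κ + κ ^ 2 / 2 + κ ^ 3 := by
  unfold cc
  have h2 := Real.exp_bound (x := κ) (n := 3) (by rw [abs_of_nonneg h]; exact h1) (by norm_num)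
  rw [abs_of_nonneg h] at h2
  have h3 := (abs_le.1 h2).2
  simp only [Finset.sum_range_succ, Finset.sum_range_zero, Nat.factorial] at h3
  norm_num at h3
  have h4 : 0 ≤ κ ^ 3 := by positivity
  linarith

section params

variable {θ D X : ℝ}

theorem cc_conv (_hθ : 0 < θ) : 13 / 12 * cc θ ≤ cc (13 / 12 * θ) := by
  unfold cc
  have h1 : Real.exp (13 / 12 * θ) = Real.exp θ * Real.exp (θ / 12) := by
    rw [← Real.exp_add]; congr 1; ring
  have h2 := Real.add_one_le_exp (θ / 12)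
  have h3 := Real.add_one_le_exp (-θ)
  have h4 := Real.exp_pos θ
  have h5 : Real.exp θ * Real.exp (-θ) = 1 := by rw [← Real.exp_add]; simp
  rw [h1]
  nlinarith [mul_le_mul_of_nonneg_left h2 h4.le, mul_le_mul_of_nonneg_left h3 h4.le]

/-- the constants -/
noncomputable def lam1 (θ D : ℝ) : ℝ := D - 13 / 12 * θ * D
noncomputable def b0 (θ D : ℝ) : ℝ := Real.exp (-(θ * D) + cc θ * lam1 θ D)
noncomputable def bet (θ D : ℝ) : ℝ :=
  Real.exp (-((13 / 12 * θ - θ) * D - (cc (13 / 12 * θ) - cc θ) * lam1 θ D))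
noncomputable def EE (θ D X : ℝ) : ℝ :=
  (cc (2 / 3 * θ) / (2 / 3 * θ) - 1) * D + Real.log (4 * X) / (2 / 3 * θ)
noncomputable def Gam (θ : ℝ) : ℝ := cc θ - 3 / 2 * cc (2 / 3 * θ)
noncomputable def phi (θ D : ℝ) (l : ℝ) (N : ℕ) : ℝ :=
  b0 θ D * (ew θ l N - bet θ D * ew (13 / 12 * θ) l N)

theorem b0_pos (θ D : ℝ) : 0 < b0 θ D := Real.exp_pos _
theorem bet_pos (θ D : ℝ) : 0 < bet θ D := Real.exp_pos _

theorem phi_le (θ D l : ℝ) (N : ℕ) : phi θ D l N ≤ b0 θ D * ew θ l N := by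
  unfold phi
  apply mul_le_mul_of_nonneg_left _ (b0_pos θ D).le
  have := mul_pos (bet_pos θ D) (ew_pos (13 / 12 * θ) l N)
  linarith

theorem phi_le_one (hθ : 0 < θ) {l : ℝ} {N : ℕ} (hN : (N : ℝ) ≤ D) : phi θ D l N ≤ 1 := by
  have e1 : b0 θ D * ew θ l N = Real.exp (-(θ * (D - N)) + cc θ * (lam1 θ D - l)) := by
    unfold b0 ew
    rw [← Real.exp_add]; congr 1; ring
  have e2 : b0 θ D * (bet θ D * ew (13 / 12 * θ) l N)
      = Real.exp (-(13 / 12 * θ * (D - N)) + cc (13 / 12 * θ) * (lam1 θ D - l)) := by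
    unfold b0 bet ew
    rw [← Real.exp_add, ← Real.exp_add]; congr 1; ring
  unfold phi
  rw [mul_sub, e1, e2]
  obtain ⟨a, ha⟩ : ∃ a, a = -(θ * (D - N)) + cc θ * (lam1 θ D - l) := ⟨_, rfl⟩
  obtain ⟨a2, ha2⟩ : ∃ a2, a2 = -(13 / 12 * θ * (D - N))
    + cc (13 / 12 * θ) * (lam1 θ D - l) := ⟨_, rfl⟩
  rw [← ha, ← ha2]
  by_cases h : a ≤ 0
  · have h1 : Real.exp a ≤ 1 := Real.exp_le_one_iff.2 h
    have h2 := Real.exp_pos a2
    linarith
  · push Not at h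
    have hcc : 0 < cc θ := by
      have := cc_lb hθ.le
      have : 0 < θ ^ 2 := by positivity
      linarith
    have hy : 0 < lam1 θ D - l := by
      by_contra hcon
      push Not at hcon
      have h3 : 0 ≤ θ * (D - N) := mul_nonneg hθ.le (by linarith)
      have h4 : cc θ * (lam1 θ D - l) ≤ 0 := mul_nonpos_of_nonneg_of_nonpos hcc.le hcon
      linarith
    have h5 := mul_le_mul_of_nonneg_right (cc_conv hθ) hy.le
    have h6 : a ≤ a2 := by
      have : a2 - 13 / 12 * a ≥ 0 := by rw [ha, ha2]; linarith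
      linarith
    have := Real.exp_le_exp.2 h6
    linarith

theorem phi_sub (hθ : 0 < θ) {d : ℕ} (hD : D = d) {l q : ℝ} {N : ℕ} (hl : 0 ≤ l) (hq : 0 ≤ q)
    (hN : N + 1 ≤ d) :
    phi θ D l N - b0 θ D * Real.exp (θ * d) * cc θ ^ 2 * q ^ 2
      ≤ (1 - q) * phi θ D (l + q) N + q * phi θ D (l + q) (N + 1) := by
  unfold phi
  have h1 := ew_step θ l q N
  have h2 := ew_step (13 / 12 * θ) l q N
  have h3 : (1 - q) * (b0 θ D * (ew θ (l + q) N - bet θ D * ew (13 / 12 * θ) (l + q) N))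
      + q * (b0 θ D * (ew θ (l + q) (N + 1) - bet θ D * ew (13 / 12 * θ) (l + q) (N + 1)))
      = b0 θ D * (((1 - q) * ew θ (l + q) N + q * ew θ (l + q) (N + 1))
        - bet θ D * ((1 - q) * ew (13 / 12 * θ) (l + q) N
          + q * ew (13 / 12 * θ) (l + q) (N + 1))) := by ring
  rw [h3, h1, h2]
  have hcc : 0 ≤ cc θ := cc_nonneg hθ.le
  have h4 := g_ge (y := cc θ * q) (mul_nonneg hcc hq)
  have h5 := g_le_one (y := cc (13 / 12 * θ) * q)
  have hb := b0_pos θ D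
  have hbt := bet_pos θ D
  have e1 := ew_pos θ l N
  have e2 := ew_pos (13 / 12 * θ) l N
  have e3 : ew θ l N ≤ Real.exp (θ * d) := ew_le hθ.le hl (by omega)
  have h6 : ew θ l N - Real.exp (θ * d) * (cc θ * q) ^ 2
      ≤ ew θ l N * ((1 + cc θ * q) * Real.exp (-(cc θ * q))) := by
    have := mul_le_mul_of_nonneg_left h4 e1.le
    have h7 : ew θ l N * (cc θ * q) ^ 2 ≤ Real.exp (θ * d) * (cc θ * q) ^ 2 :=
      mul_le_mul_of_nonneg_right e3 (by positivity)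
    linarith
  have h8 : bet θ D * (ew (13 / 12 * θ) l N * ((1 + cc (13 / 12 * θ) * q)
      * Real.exp (-(cc (13 / 12 * θ) * q)))) ≤ bet θ D * ew (13 / 12 * θ) l N := by
    apply mul_le_mul_of_nonneg_left _ hbt.le
    have := mul_le_mul_of_nonneg_left h5 e2.le
    linarith
  have h9 : ew θ l N - bet θ D * ew (13 / 12 * θ) l N - Real.exp (θ * d) * (cc θ * q) ^ 2
      ≤ ew θ l N * ((1 + cc θ * q) * Real.exp (-(cc θ * q)))
        - bet θ D * (ew (13 / 12 * θ) l N * ((1 + cc (13 / 12 * θ) * q)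
      * Real.exp (-(cc (13 / 12 * θ) * q)))) := by linarith
  have h10 := mul_le_mul_of_nonneg_left h9 hb.le
  refine le_trans (le_of_eq ?_) h10
  ring

theorem bet_le (hθ : 0 < θ) (hθ1 : θ ≤ 1 / 1000000) (hT : θ ^ 2 * D = 4096) :
    bet θ D ≤ 1 / 4 := by
  unfold bet lam1
  have h1 := cc_lb hθ.le
  have h2 := cc_ub (κ := 13 / 12 * θ) (by positivity) (by linarith)
  have hD : 0 < D := by
    by_contra h
    push Not at h
    have : θ ^ 2 * D ≤ 0 := mul_nonpos_of_nonneg_of_nonpos (by positivity) h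
    linarith
  have h3 : 0 ≤ D - 13 / 12 * θ * D := by nlinarith
  have h4 : cc (13 / 12 * θ) - cc θ ≤ θ / 12 + 25 / 288 * θ ^ 2 + 2 * θ ^ 3 := by
    have : (0:ℝ) ≤ θ ^ 3 := by positivity
    nlinarith
  have h5 := mul_le_mul_of_nonneg_right h4 h3
  have hT3 : θ ^ 3 * D = 4096 * θ := by
    have : θ ^ 3 * D = θ * (θ ^ 2 * D) := by ring
    rw [this, hT]; ring
  have hT4 : 0 ≤ θ ^ 4 * D := by positivity
  have h6 : (θ / 12 + 25 / 288 * θ ^ 2 + 2 * θ ^ 3) * (D - 13 / 12 * θ * D)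
      = θ * D / 12 - (θ ^ 2 * D) / 288 + (2 - 325 / 3456) * (θ ^ 3 * D)
        - 13 / 6 * (θ ^ 4 * D) := by ring
  rw [h6, hT, hT3] at h5
  have h7 : (2 : ℝ) ≤ (13 / 12 * θ - θ) * D - (cc (13 / 12 * θ) - cc θ)
      * (D - 13 / 12 * θ * D) := by linarith
  have h8 : Real.exp (-((13 / 12 * θ - θ) * D - (cc (13 / 12 * θ) - cc θ)
      * (D - 13 / 12 * θ * D))) ≤ Real.exp (-2) := Real.exp_le_exp.2 (by linarith)
  refine h8.trans ?_
  rw [Real.exp_neg]
  have h9 : (4 : ℝ) ≤ Real.exp 2 := by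
    have h10 : Real.exp 2 = Real.exp 1 * Real.exp 1 := by rw [← Real.exp_add]; norm_num
    have h11 := Real.exp_one_gt_d9
    rw [h10]; nlinarith
  rw [inv_eq_one_div]
  exact one_div_le_one_div_of_le (by norm_num) h9

theorem b0_ge (hθ : 0 < θ) (hθ1 : θ ≤ 1 / 1000000) (hT : θ ^ 2 * D = 4096) :
    Real.exp (-2390) ≤ b0 θ D := by
  unfold b0 lam1
  apply Real.exp_le_exp.2
  have h1 := cc_lb hθ.le
  have hD : 0 < D := by
    by_contra h
    push Not at h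
    have : θ ^ 2 * D ≤ 0 := mul_nonpos_of_nonneg_of_nonpos (by positivity) h
    linarith
  have h3 : 0 ≤ D - 13 / 12 * θ * D := by nlinarith
  have h5 := mul_le_mul_of_nonneg_right h1 h3
  have hT3 : θ ^ 3 * D = 4096 * θ := by
    have : θ ^ 3 * D = θ * (θ ^ 2 * D) := by ring
    rw [this, hT]; ring
  have h6 : (θ + θ ^ 2 / 2) * (D - 13 / 12 * θ * D)
      = θ * D + (1 / 2 - 13 / 12) * (θ ^ 2 * D) - 13 / 24 * (θ ^ 3 * D) := by ring
  rw [h6, hT, hT3] at h5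
  linarith

theorem EE_bounds (hθ : 0 < θ) (hθ1 : θ ≤ 1 / 1000000) (hT : θ ^ 2 * D = 4096) (hX : 1 ≤ X)
    (hX1 : Real.log (4 * X) ≤ 1254) : 0 ≤ EE θ D X ∧ θ * EE θ D X ≤ 3247 := by
  have hη : 0 < 2 / 3 * θ := by positivity
  have h1 := cc_lb hη.le
  have h2 := cc_ub hη.le (by linarith)
  have hD : 0 < D := by
    by_contra h
    push Not at h
    have : θ ^ 2 * D ≤ 0 := mul_nonpos_of_nonneg_of_nonpos (by positivity) h
    linarith
  have hlog : 0 ≤ Real.log (4 * X) := Real.log_nonneg (by linarith)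
  have h3 : 1 ≤ cc (2 / 3 * θ) / (2 / 3 * θ) := by
    rw [one_le_div hη]
    have : 0 ≤ (2 / 3 * θ) ^ 2 := by positivity
    linarith
  have h4 : cc (2 / 3 * θ) / (2 / 3 * θ) ≤ 1 + (2 / 3 * θ) / 2 + (2 / 3 * θ) ^ 2 := by
    rw [div_le_iff₀ hη]
    linarith
  unfold EE
  refine ⟨?_, ?_⟩
  · apply add_nonneg
    · exact mul_nonneg (by linarith) hD.le
    · positivity
  · have h5 : θ * ((cc (2 / 3 * θ) / (2 / 3 * θ) - 1) * D)
        ≤ θ * (((2 / 3 * θ) / 2 + (2 / 3 * θ) ^ 2) * D) := by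
      apply mul_le_mul_of_nonneg_left _ hθ.le
      apply mul_le_mul_of_nonneg_right _ hD.le
      linarith
    have hT3 : θ ^ 3 * D = 4096 * θ := by
      have : θ ^ 3 * D = θ * (θ ^ 2 * D) := by ring
      rw [this, hT]; ring
    have h6 : θ * (((2 / 3 * θ) / 2 + (2 / 3 * θ) ^ 2) * D)
        = 1 / 3 * (θ ^ 2 * D) + 4 / 9 * (θ ^ 3 * D) := by ring
    rw [h6, hT, hT3] at h5
    have h7 : θ * (Real.log (4 * X) / (2 / 3 * θ)) = 3 / 2 * Real.log (4 * X) := by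
      field_simp
    rw [mul_add, h7]
    linarith

theorem Gam_bounds (hθ : 0 < θ) (hθ1 : θ ≤ 1 / 1000000) :
    θ ^ 2 / 6 - 4 / 9 * θ ^ 3 ≤ Gam θ ∧ Gam θ ≤ θ ^ 2 / 6 + θ ^ 3 := by
  have hη : 0 < 2 / 3 * θ := by positivity
  have h1 := cc_lb hη.le
  have h2 := cc_ub hη.le (by linarith)
  have h3 := cc_lb hθ.le
  have h4 := cc_ub hθ.le (by linarith)
  unfold Gam
  constructor <;> nlinarith

end params

end Pool.Agent.Helper49.Star
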