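import Mathlib
import Pool.Agent.Helper49.StarParam

set_option autoImplicit false
open Classical
open Finset

namespace Pool.Agent.Helper49.Star

theorem hE_param {θ D X : ℝ} (hθ : 0 < θ) (hX : 1 ≤ X) {l : ℝ} {k : ℕ} (hlD : l ≤ D)
    (h : ew (2 / 3 * θ) l k ≤ 4 * X) : (k : ℝ) ≤ l + EE θ D X := by
  have hη : 0 < 2 / 3 * θ := by positivity
  have h1 : 2 / 3 * θ * k - cc (2 / 3 * θ) * l ≤ Real.log (4 * X) := by
    rw [Real.le_log_iff_exp_le (by linarith)]
    exact h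
  have h2 := cc_lb hη.le
  have h3 : 0 ≤ cc (2 / 3 * θ) / (2 / 3 * θ) - 1 := by
    rw [sub_nonneg, one_le_div hη]
    have : 0 ≤ (2 / 3 * θ) ^ 2 := by positivity
    linarith
  have h4 : (k : ℝ) ≤ (cc (2 / 3 * θ) * l + Real.log (4 * X)) / (2 / 3 * θ) := by
    rw [le_div_iff₀ hη]; linarith
  unfold EE
  have h5 : (cc (2 / 3 * θ) * l + Real.log (4 * X)) / (2 / 3 * θ)
      = l + ((cc (2 / 3 * θ) / (2 / 3 * θ) - 1) * l + Real.log (4 * X) / (2 / 3 * θ)) := by
    field_simp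
    ring
  rw [h5] at h4
  have h6 := mul_le_mul_of_nonneg_left hlD h3
  linarith

/-- the cost bound at time `t` -/
noncomputable def costf (b : ℝ) (n : ℕ) (t : ℕ) : ℝ :=
  b * (16 / ((((n : ℝ) - t) / n) * √(((n : ℝ) - t) / n))) * Real.exp (-(682 * ((t : ℝ) / n)))

theorem costf_nonneg {b : ℝ} (hb : 0 ≤ b) (n t : ℕ) : 0 ≤ costf b n t := by
  unfold costf
  apply mul_nonneg _ (Real.exp_pos _).le
  apply mul_nonneg hb
  by_cases h : 0 ≤ ((n : ℝ) - t) / n
  · positivity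
  · push Not at h
    rw [Real.sqrt_eq_zero_of_nonpos h.le]
    simp

theorem exp_le_two {y : ℝ} (hy : y ≤ 1 / 2) : Real.exp y ≤ 2 := by
  have h1 := Real.add_one_le_exp (-y)
  have h2 : Real.exp y * Real.exp (-y) = 1 := by rw [← Real.exp_add]; simp
  have h3 := Real.exp_pos y
  nlinarith

theorem hcost_param {θ D X : ℝ} (hθ : 0 < θ) (hθ1 : θ ≤ 1 / 1000000) (hT : θ ^ 2 * D = 4096)
    (hX : 1 ≤ X) (hX1 : Real.log (4 * X) ≤ 1254) {n t : ℕ} (htn : t < n) {l : ℝ} {k : ℕ}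
    (hl : D * t / n - EE θ D X ≤ l)
    (h : ew (2 / 3 * θ) l k ≤ 4 * ((n : ℝ) / ((n : ℝ) - t))) :
    phi θ D l k ≤ costf (b0 θ D) n t := by
  refine (phi_le θ D l k).trans ?_
  have hnR : (0 : ℝ) < n := by exact_mod_cast (by omega : 0 < n)
  have htR : (t : ℝ) < n := by exact_mod_cast htn
  obtain ⟨x, hx⟩ : ∃ x : ℝ, x = ((n : ℝ) - t) / n := ⟨_, rfl⟩
  have hx0 : 0 < x := by rw [hx]; apply div_pos <;> linarith
  have hinv : (n : ℝ) / ((n : ℝ) - t) = 1 / x := by rw [hx, one_div_div]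
  rw [hinv] at h
  unfold costf
  rw [← hx, mul_assoc]
  apply mul_le_mul_of_nonneg_left _ (b0_pos θ D).le
  obtain ⟨hE0, hE1⟩ := EE_bounds hθ hθ1 hT hX hX1
  obtain ⟨hG0, hG1⟩ := Gam_bounds hθ hθ1
  set y := ew (2 / 3 * θ) l k with hy
  have hy0 : 0 < y := ew_pos _ _ _
  -- decompose
  have h1 : ew θ l k = y * √y * Real.exp (-(Gam θ * l)) := by
    have h2 : √y = Real.exp ((2 / 3 * θ * k - cc (2 / 3 * θ) * l) / 2) := by
      rw [hy]; unfold ew
      rw [Real.exp_half]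
    rw [h2, hy]
    unfold ew Gam
    rw [← Real.exp_add, ← Real.exp_add]
    congr 1
    ring
  have h3 : √y ≤ 2 * (1 / √x) := by
    have h4 : √y ≤ √(4 * (1 / x)) := Real.sqrt_le_sqrt h
    refine h4.trans (le_of_eq ?_)
    rw [Real.sqrt_mul (by norm_num), Real.sqrt_div (by norm_num), Real.sqrt_one]
    congr 1
    rw [show (4 : ℝ) = 2 ^ 2 by norm_num, Real.sqrt_sq (by norm_num)]
  have hsx : 0 < √x := Real.sqrt_pos.2 hx0
  have h5 : y * √y ≤ 8 / (x * √x) := by
    have h6 : y * √y ≤ (4 * (1 / x)) * (2 * (1 / √x)) :=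
      mul_le_mul h h3 (Real.sqrt_nonneg _) (by positivity)
    refine h6.trans (le_of_eq ?_)
    field_simp
    norm_num
  have hθ3 : 0 ≤ θ ^ 3 := by positivity
  have hGpos : 0 ≤ Gam θ := by nlinarith
  have hGE : Gam θ * EE θ D X ≤ 1 / 2 := by
    have h7 := mul_le_mul_of_nonneg_right hG1 hE0
    have h8 : (θ ^ 2 / 6 + θ ^ 3) * EE θ D X = (θ / 6 + θ ^ 2) * (θ * EE θ D X) := by ring
    rw [h8] at h7
    have h9 : (θ / 6 + θ ^ 2) * (θ * EE θ D X) ≤ (θ / 6 + θ ^ 2) * 3247 :=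
      mul_le_mul_of_nonneg_left hE1 (by positivity)
    nlinarith
  have hGD : 682 ≤ Gam θ * D := by
    have hD : 0 < D := by
      by_contra h
      push Not at h
      have : θ ^ 2 * D ≤ 0 := mul_nonpos_of_nonneg_of_nonpos (by positivity) h
      linarith
    have h7 := mul_le_mul_of_nonneg_right hG0 hD.le
    have hT3 : θ ^ 3 * D = 4096 * θ := by
      have : θ ^ 3 * D = θ * (θ ^ 2 * D) := by ring
      rw [this, hT]; ring
    have h8 : (θ ^ 2 / 6 - 4 / 9 * θ ^ 3) * D = θ ^ 2 * D / 6 - 4 / 9 * (θ ^ 3 * D) := by ring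
    rw [h8, hT, hT3] at h7
    linarith
  have h10 : Real.exp (-(Gam θ * l)) ≤ 2 * Real.exp (-(682 * ((t : ℝ) / n))) := by
    have h11 : -(Gam θ * l) ≤ Gam θ * EE θ D X + -(682 * ((t : ℝ) / n)) := by
      have h12 := mul_le_mul_of_nonneg_left hl hGpos
      have h13 : 682 * ((t : ℝ) / n) ≤ Gam θ * D * ((t : ℝ) / n) :=
        mul_le_mul_of_nonneg_right hGD (by positivity)
      have h14 : Gam θ * (D * t / n - EE θ D X) = Gam θ * D * ((t : ℝ) / n)
          - Gam θ * EE θ D X := by ring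
      rw [h14] at h12
      linarith
    calc Real.exp (-(Gam θ * l)) ≤ Real.exp (Gam θ * EE θ D X + -(682 * ((t : ℝ) / n))) :=
          Real.exp_le_exp.2 h11
      _ = Real.exp (Gam θ * EE θ D X) * Real.exp (-(682 * ((t : ℝ) / n))) := Real.exp_add _ _
      _ ≤ _ := mul_le_mul_of_nonneg_right (exp_le_two hGE) (Real.exp_pos _).le
  rw [h1]
  calc y * √y * Real.exp (-(Gam θ * l))
      ≤ (8 / (x * √x)) * (2 * Real.exp (-(682 * ((t : ℝ) / n)))) :=
        mul_le_mul h5 h10 (Real.exp_pos _).le (by positivity)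
    _ = _ := by ring

theorem hterm_param {θ D X : ℝ} (hθ : 0 < θ) (hθ1 : θ ≤ 1 / 1000000) (hT : θ ^ 2 * D = 4096)
    (hX : 1 ≤ X) (hX1 : Real.log (4 * X) ≤ 1254) (hX2 : 8 * Real.exp 1220 ≤ X)
    (hθD : θ * D = X) {l : ℝ} {N : ℕ} (hN : (N : ℝ) ≤ D)
    (hl : D * (1 - 1 / X) - EE θ D X ≤ l) :
    phi θ D l N ≤ b0 θ D / 8 * X := by
  refine (phi_le θ D l N).trans ?_
  rw [div_mul_eq_mul_div, mul_div_assoc]
  apply mul_le_mul_of_nonneg_left _ (b0_pos θ D).le
  obtain ⟨hE0, hE1⟩ := EE_bounds hθ hθ1 hT hX hX1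
  have hc1 := cc_lb hθ.le
  have hc2 := cc_ub hθ.le (by linarith)
  have hcc : 0 ≤ cc θ := cc_nonneg hθ.le
  have hD : 0 < D := by
    by_contra h
    push Not at h
    have : θ ^ 2 * D ≤ 0 := mul_nonpos_of_nonneg_of_nonpos (by positivity) h
    linarith
  have h1 : θ * N - cc θ * l ≤ 1220 := by
    have h2 := mul_le_mul_of_nonneg_left hl hcc
    have h3 : cc θ * (D * (1 - 1 / X) - EE θ D X) = cc θ * D - cc θ * (D / X + EE θ D X) := by
      field_simp
      ring
    rw [h3] at h2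
    have h4 : (θ + θ ^ 2 / 2) * D ≤ cc θ * D := mul_le_mul_of_nonneg_right hc1 hD.le
    have hDX : 0 ≤ D / X + EE θ D X := by positivity
    have hc3 : cc θ ≤ θ * (1 + θ) := by nlinarith [mul_pos hθ hθ]
    have h5 : cc θ * (D / X + EE θ D X) ≤ θ * (1 + θ) * (D / X + EE θ D X) :=
      mul_le_mul_of_nonneg_right hc3 hDX
    have h6 : θ * (1 + θ) * (D / X + EE θ D X) = (1 + θ) * (θ * D / X + θ * EE θ D X) := by ring
    rw [h6, hθD, div_self (by linarith)] at h5
    have h7 : (1 + θ) * (1 + θ * EE θ D X) ≤ (1 + θ) * 3248 :=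
      mul_le_mul_of_nonneg_left (by linarith) (by linarith)
    have h8 : (θ + θ ^ 2 / 2) * D = θ * D + (θ ^ 2 * D) / 2 := by ring
    rw [h8, hT] at h4
    have h9 : θ * N ≤ θ * D := mul_le_mul_of_nonneg_left hN hθ.le
    linarith
  unfold ew
  have h10 := Real.exp_le_exp.2 h1
  linarith

/-- elementary comparison used for the region where few vertices remain -/
theorem inv_sqrt_telescope {x y : ℝ} (hy : 0 < y) (hxy : y ≤ x) :
    (x - y) * (1 / (x * √x)) ≤ 2 * (1 / √y - 1 / √x) := by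
  have hx : 0 < x := by linarith
  have hsx : 0 < √x := Real.sqrt_pos.2 hx
  have hsy : 0 < √y := Real.sqrt_pos.2 hy
  have hs : √y ≤ √x := Real.sqrt_le_sqrt hxy
  have ex : √x * √x = x := Real.mul_self_sqrt hx.le
  have ey : √y * √y = y := Real.mul_self_sqrt hy.le
  obtain ⟨a, ha⟩ : ∃ a, a = √x := ⟨_, rfl⟩
  obtain ⟨b, hb⟩ : ∃ b, b = √y := ⟨_, rfl⟩
  rw [← ha] at hsx hs ex ⊢
  rw [← hb] at hsy hs ey ⊢
  rw [← ex, ← ey]
  have h1 : (a * a - b * b) * (1 / (a * a * a)) = (a * a - b * b) / (a * a * a) := by ring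
  have h2 : 2 * (1 / b - 1 / a) = 2 * (a - b) / (a * b) := by field_simp
  rw [h1, h2, div_le_div_iff₀ (by positivity) (by positivity)]
  have h3 : 0 ≤ a - b := by linarith
  have h4 : 0 ≤ (a - b) * (a * (2 * a * a - (a + b) * b)) := by
    apply mul_nonneg h3
    apply mul_nonneg hsx.le
    nlinarith
  nlinarith

theorem geom_exp_sum {z : ℝ} (hz : 0 < z) (m : ℕ) :
    ∑ s ∈ Finset.range m, Real.exp (-(z * s)) ≤ 1 + 1 / z := by
  have h1 : ∀ s ∈ Finset.range m, Real.exp (-(z * s)) = (Real.exp (-z)) ^ s := by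
    intro s _
    rw [← Real.exp_nat_mul]; congr 1; ring
  rw [Finset.sum_congr rfl h1]
  have h2 := mul_neg_geom_sum (Real.exp (-z)) m
  have h3 : Real.exp (-z) ≤ 1 / (1 + z) := by
    rw [Real.exp_neg, inv_eq_one_div]
    apply one_div_le_one_div_of_le (by linarith)
    have := Real.add_one_le_exp z
    linarith
  have h4 : z / (1 + z) ≤ 1 - Real.exp (-z) := by
    have : z / (1 + z) = 1 - 1 / (1 + z) := by field_simp; ring
    linarith
  have h5 : 0 ≤ Real.exp (-z) ^ m := by positivity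
  have h6 : (1 - Real.exp (-z)) * ∑ s ∈ Finset.range m, Real.exp (-z) ^ s ≤ 1 := by linarith
  have h7 : 0 ≤ ∑ s ∈ Finset.range m, Real.exp (-z) ^ s :=
    Finset.sum_nonneg fun s _ => by positivity
  have h8 : z / (1 + z) * ∑ s ∈ Finset.range m, Real.exp (-z) ^ s ≤ 1 :=
    (mul_le_mul_of_nonneg_right h4 h7).trans h6
  have h9 : ∑ s ∈ Finset.range m, Real.exp (-z) ^ s ≤ 1 / (z / (1 + z)) := by
    rw [le_div_iff₀ (by positivity)]; linarith
  refine h9.trans (le_of_eq ?_)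
  field_simp
  ring

theorem cost_pointwise {x : ℝ} (hx : 0 < x) (hx1 : x ≤ 1) :
    (16 / (x * √x)) * Real.exp (-(682 * (1 - x)))
      ≤ 16 * Real.exp (-(532 * (1 - x))) + 16 * Real.exp (-675) * (1 / (x * √x)) := by
  have hsx : 0 < √x := Real.sqrt_pos.2 hx
  by_cases h : 1 / 100 ≤ x
  · have h1 : 1 / (x * √x) ≤ Real.exp (150 * (1 - x)) := by
      have h2 : 1 / x ≤ Real.exp (100 * (1 - x)) := by
        have h3 := Real.add_one_le_exp (100 * (1 - x))
        refine le_trans ?_ h3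
        rw [div_le_iff₀ hx]
        nlinarith
      have h4 : 1 / √x ≤ Real.exp (50 * (1 - x)) := by
        have h5 : √(1 / x) ≤ √(Real.exp (100 * (1 - x))) := Real.sqrt_le_sqrt h2
        rw [Real.sqrt_div (by norm_num), Real.sqrt_one] at h5
        refine h5.trans (le_of_eq ?_)
        rw [← Real.exp_half]; congr 1; ring
      calc 1 / (x * √x) = (1 / x) * (1 / √x) := by field_simp
        _ ≤ Real.exp (100 * (1 - x)) * Real.exp (50 * (1 - x)) :=
            mul_le_mul h2 h4 (by positivity) (Real.exp_pos _).le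
        _ = _ := by rw [← Real.exp_add]; congr 1; ring
    have h6 : (16 / (x * √x)) * Real.exp (-(682 * (1 - x)))
        ≤ 16 * Real.exp (150 * (1 - x)) * Real.exp (-(682 * (1 - x))) := by
      apply mul_le_mul_of_nonneg_right _ (Real.exp_pos _).le
      have : 16 / (x * √x) = 16 * (1 / (x * √x)) := by ring
      rw [this]; linarith
    have h7 : 16 * Real.exp (150 * (1 - x)) * Real.exp (-(682 * (1 - x)))
        = 16 * Real.exp (-(532 * (1 - x))) := by
      rw [mul_assoc, ← Real.exp_add]; congr 2; ring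
    have h8 : 0 ≤ 16 * Real.exp (-675) * (1 / (x * √x)) := by positivity
    linarith
  · push Not at h
    have h1 : Real.exp (-(682 * (1 - x))) ≤ Real.exp (-675) := Real.exp_le_exp.2 (by linarith)
    have h2 : (16 / (x * √x)) * Real.exp (-(682 * (1 - x)))
        ≤ (16 / (x * √x)) * Real.exp (-675) := mul_le_mul_of_nonneg_left h1 (by positivity)
    have h3 : (16 / (x * √x)) * Real.exp (-675) = 16 * Real.exp (-675) * (1 / (x * √x)) := by
      ring
    have h4 := Real.exp_pos (-(532 * (1 - x)))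
    linarith

theorem sum_cost {b X : ℝ} (hb : 0 ≤ b) {n tstar : ℕ} (hn : 1000 ≤ n) (hts : tstar < n)
    (hX : (n : ℝ) ≤ X * ((n : ℝ) - tstar)) (hXpos : 0 < X)
    (hX3 : 512 * √X ≤ Real.exp 675) :
    (∑ s ∈ Finset.Ico 0 tstar, costf b n s) / n ≤ b / 8 := by
  have hnR : (0 : ℝ) < n := by exact_mod_cast (by omega : 0 < n)
  have hn1000 : (1000 : ℝ) ≤ n := by exact_mod_cast hn
  rw [Nat.Ico_zero_eq_range]
  have hxs : ∀ s : ℕ, s ≤ tstar → 0 < ((n : ℝ) - s) / n := by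
    intro s hs
    have : (s : ℝ) < n := by exact_mod_cast (by omega : s < n)
    apply div_pos <;> linarith
  have h1 : ∀ s ∈ Finset.range tstar, costf b n s
      ≤ b * (16 * Real.exp (-((532 / (n : ℝ)) * s)) + 16 * Real.exp (-675) *
        (2 * n * (1 / √(((n : ℝ) - ((s + 1 : ℕ) : ℝ)) / n) - 1 / √(((n : ℝ) - s) / n)))) := by
    intro s hs
    rw [Finset.mem_range] at hs
    have hx := hxs s hs.le
    have hy := hxs (s + 1) hs
    have hx1 : ((n : ℝ) - s) / n ≤ 1 := by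
      rw [div_le_one hnR]
      have : (0 : ℝ) ≤ s := by positivity
      linarith
    have h2 := cost_pointwise hx hx1
    have e1 : 1 - ((n : ℝ) - s) / n = (s : ℝ) / n := by field_simp; ring
    rw [e1] at h2
    have hxy : ((n : ℝ) - ((s + 1 : ℕ) : ℝ)) / n ≤ ((n : ℝ) - s) / n := by
      apply div_le_div_of_nonneg_right _ hnR.le
      push_cast; linarith
    have h3 := inv_sqrt_telescope hy hxy
    have e2 : ((n : ℝ) - s) / n - ((n : ℝ) - ((s + 1 : ℕ) : ℝ)) / n = 1 / n := by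
      push_cast; field_simp; ring
    rw [e2] at h3
    have h4 : 1 / (((n : ℝ) - s) / n * √(((n : ℝ) - s) / n))
        ≤ 2 * n * (1 / √(((n : ℝ) - ((s + 1 : ℕ) : ℝ)) / n) - 1 / √(((n : ℝ) - s) / n)) := by
      have h5 := mul_le_mul_of_nonneg_left h3 hnR.le
      have h6 : (n : ℝ) * (1 / n * (1 / (((n : ℝ) - s) / n * √(((n : ℝ) - s) / n))))
          = 1 / (((n : ℝ) - s) / n * √(((n : ℝ) - s) / n)) := by
        rw [← mul_assoc, mul_one_div_cancel hnR.ne', one_mul]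
      rw [h6] at h5
      linarith
    unfold costf
    rw [mul_assoc]
    apply mul_le_mul_of_nonneg_left _ hb
    refine h2.trans ?_
    have h7 := mul_le_mul_of_nonneg_left h4 (by positivity : (0:ℝ) ≤ 16 * Real.exp (-675))
    have e3 : (532 / (n : ℝ)) * s = 532 * ((s : ℝ) / n) := by ring
    rw [e3]
    linarith
  have h8 := Finset.sum_le_sum h1
  rw [← Finset.mul_sum, Finset.sum_add_distrib, ← Finset.mul_sum, ← Finset.mul_sum,
    ← Finset.mul_sum, Finset.sum_range_sub (fun s : ℕ => 1 / √(((n : ℝ) - s) / n))] at h8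
  have h9 := geom_exp_sum (z := 532 / (n : ℝ)) (by positivity) tstar
  have h10 : 1 / √(((n : ℝ) - (tstar : ℝ)) / n) ≤ √X := by
    have h11 : 1 / (((n : ℝ) - (tstar : ℝ)) / n) ≤ X := by
      have h12 : (0 : ℝ) < (n : ℝ) - tstar := by
        have : (tstar : ℝ) < n := by exact_mod_cast hts
        linarith
      rw [one_div_div, div_le_iff₀ h12]; exact hX
    have h13 := Real.sqrt_le_sqrt h11
    rw [Real.sqrt_div (by norm_num), Real.sqrt_one] at h13
    exact h13
  have h14 : 0 ≤ 1 / √(((n : ℝ) - ((0 : ℕ) : ℝ)) / n) := by positivity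
  have hexp : Real.exp (-675) * Real.exp 675 = 1 := by rw [← Real.exp_add]; simp
  have h15 : 16 * Real.exp (-675) * (2 * n * (1 / √(((n : ℝ) - (tstar : ℝ)) / n)
      - 1 / √(((n : ℝ) - ((0 : ℕ) : ℝ)) / n))) ≤ n / 16 := by
    have h16 : 2 * (n : ℝ) * (1 / √(((n : ℝ) - (tstar : ℝ)) / n)
      - 1 / √(((n : ℝ) - ((0 : ℕ) : ℝ)) / n)) ≤ 2 * n * √X := by
      apply mul_le_mul_of_nonneg_left _ (by positivity)
      linarith
    have h17 := mul_le_mul_of_nonneg_left h16 (by positivity : (0:ℝ) ≤ 16 * Real.exp (-675))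
    refine h17.trans ?_
    have h18 := mul_le_mul_of_nonneg_left hX3 (Real.exp_pos (-675)).le
    rw [hexp] at h18
    have h19 : 16 * Real.exp (-675) * (2 * n * √X) = n / 16 * (Real.exp (-675) * (512 * √X)) := by
      ring
    rw [h19]
    nlinarith
  rw [div_le_iff₀ hnR]
  refine h8.trans ?_
  have h20 : 16 * (1 + 1 / (532 / (n : ℝ))) + n / 16 ≤ 1 / 8 * n := by
    rw [one_div_div]; linarith
  have h21 : 16 * ∑ i ∈ Finset.range tstar, Real.exp (-(532 / (n : ℝ) * i))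
      + 16 * Real.exp (-675) * (2 * n * (1 / √(((n : ℝ) - (tstar : ℝ)) / n)
      - 1 / √(((n : ℝ) - ((0 : ℕ) : ℝ)) / n))) ≤ 1 / 8 * n := by linarith
  have h22 := mul_le_mul_of_nonneg_left h21 hb
  linarith

end Pool.Agent.Helper49.Star
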