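import Mathlib

set_option autoImplicit false
open Classical
open Finset

namespace Pool.Agent.Helper49.Switch

variable {n : ℕ}

/-- the switching: remove `ab`, `ce`, add `ac`, `be` -/
def sw (H : SimpleGraph (Fin n)) (a b c e : Fin n) : SimpleGraph (Fin n) where
  Adj x y := x ≠ y ∧ ((H.Adj x y ∧ s(x, y) ≠ s(a, b) ∧ s(x, y) ≠ s(c, e)) ∨
    s(x, y) = s(a, c) ∨ s(x, y) = s(b, e))
  symm := by
    constructor
    intro x y h
    rw [Sym2.eq_swap (a := y) (b := x)]
    refine ⟨h.1.symm, ?_⟩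
    rcases h.2 with h2 | h2
    · exact Or.inl ⟨h2.1.symm, h2.2⟩
    · exact Or.inr h2
  loopless := ⟨fun x h => h.1 rfl⟩

theorem sw_adj {H : SimpleGraph (Fin n)} {a b c e x y : Fin n} :
    (sw H a b c e).Adj x y ↔ x ≠ y ∧ ((H.Adj x y ∧ s(x, y) ≠ s(a, b) ∧ s(x, y) ≠ s(c, e)) ∨
    s(x, y) = s(a, c) ∨ s(x, y) = s(b, e)) := Iff.rfl

theorem sw_comm (H : SimpleGraph (Fin n)) (a b c e : Fin n) : sw H c e a b = sw H a b c e := by
  ext x y
  simp only [sw_adj]
  rw [Sym2.eq_swap (a := c) (b := a), Sym2.eq_swap (a := e) (b := b)]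
  tauto

theorem sw_flip (H : SimpleGraph (Fin n)) (a b c e : Fin n) : sw H b a e c = sw H a b c e := by
  ext x y
  simp only [sw_adj]
  rw [Sym2.eq_swap (a := b) (b := a), Sym2.eq_swap (a := e) (b := c)]
  tauto

/-- the switching is undone by another switching -/
theorem sw_sw {H : SimpleGraph (Fin n)} {a b c e : Fin n} (hab : H.Adj a b) (hce : H.Adj c e)
    (hac : ¬ H.Adj a c) (hbe : ¬ H.Adj b e) (hac' : a ≠ c) (hbe' : b ≠ e) :
    sw (sw H a b c e) a c b e = H := by
  have h1 : ∀ x y, H.Adj x y → s(x, y) ≠ s(a, c) := by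
    intro x y h h2
    rw [Sym2.eq_iff] at h2
    rcases h2 with ⟨rfl, rfl⟩ | ⟨rfl, rfl⟩
    · exact hac h
    · exact hac h.symm
  have h2 : ∀ x y, H.Adj x y → s(x, y) ≠ s(b, e) := by
    intro x y h h2
    rw [Sym2.eq_iff] at h2
    rcases h2 with ⟨rfl, rfl⟩ | ⟨rfl, rfl⟩
    · exact hbe h
    · exact hbe h.symm
  have h3 : ∀ x y, s(x, y) = s(a, b) → H.Adj x y := by
    intro x y h
    rw [Sym2.eq_iff] at h
    rcases h with ⟨rfl, rfl⟩ | ⟨rfl, rfl⟩
    · exact hab
    · exact hab.symm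
  have h4 : ∀ x y, s(x, y) = s(c, e) → H.Adj x y := by
    intro x y h
    rw [Sym2.eq_iff] at h
    rcases h with ⟨rfl, rfl⟩ | ⟨rfl, rfl⟩
    · exact hce
    · exact hce.symm
  ext x y
  simp only [sw_adj]
  constructor
  · rintro ⟨hxy, ⟨⟨-, h5⟩, h6, h7⟩ | h5 | h5⟩
    · rcases h5 with h8 | h8 | h8
      · exact h8.1
      · exact absurd h8 h6
      · exact absurd h8 h7
    · exact h3 x y h5
    · exact h4 x y h5
  · intro h
    refine ⟨h.ne, ?_⟩
    by_cases h5 : s(x, y) = s(a, b)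
    · exact Or.inr (Or.inl h5)
    · by_cases h6 : s(x, y) = s(c, e)
      · exact Or.inr (Or.inr h6)
      · exact Or.inl ⟨⟨h.ne, Or.inl ⟨h, h5, h6⟩⟩, h1 x y h, h2 x y h⟩

theorem degree_sw_a {H : SimpleGraph (Fin n)} {a b c e : Fin n} (hab : H.Adj a b)
    (hac : ¬ H.Adj a c) (hac' : a ≠ c) (hae : a ≠ e) :
    (sw H a b c e).degree a = H.degree a := by
  have hba : a ≠ b := hab.ne
  have h : (sw H a b c e).neighborFinset a = insert c ((H.neighborFinset a).erase b) := by
    ext y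
    rw [SimpleGraph.mem_neighborFinset, Finset.mem_insert, Finset.mem_erase,
      SimpleGraph.mem_neighborFinset, sw_adj]
    constructor
    · rintro ⟨hxy, ⟨h1, h2, h3⟩ | h2 | h2⟩
      · right
        refine ⟨?_, h1⟩
        rintro rfl
        exact h2 rfl
      · rw [Sym2.eq_iff] at h2
        rcases h2 with ⟨-, h3⟩ | ⟨h3, -⟩
        · exact Or.inl h3
        · exact absurd h3 hac'
      · rw [Sym2.eq_iff] at h2
        rcases h2 with ⟨h3, -⟩ | ⟨h3, -⟩
        · exact absurd h3 hba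
        · exact absurd h3 hae
    · rintro (rfl | ⟨h1, h2⟩)
      · exact ⟨hac', Or.inr (Or.inl rfl)⟩
      · refine ⟨h2.ne, Or.inl ⟨h2, ?_, ?_⟩⟩
        · intro h3
          rw [Sym2.eq_iff] at h3
          rcases h3 with ⟨-, h4⟩ | ⟨h4, -⟩
          · exact h1 h4
          · exact hba h4
        · intro h3
          rw [Sym2.eq_iff] at h3
          rcases h3 with ⟨h4, -⟩ | ⟨h4, -⟩
          · exact hac' h4
          · exact hae h4
  have hb : b ∈ H.neighborFinset a := (SimpleGraph.mem_neighborFinset _ _ _).2 hab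
  have hc : c ∉ (H.neighborFinset a).erase b := by
    rw [Finset.mem_erase, SimpleGraph.mem_neighborFinset]
    rintro ⟨-, h1⟩
    exact hac h1
  rw [← SimpleGraph.card_neighborFinset_eq_degree, ← SimpleGraph.card_neighborFinset_eq_degree, h,
    Finset.card_insert_of_notMem hc, Finset.card_erase_of_mem hb]
  have : 0 < (H.neighborFinset a).card := Finset.card_pos.2 ⟨b, hb⟩
  omega

theorem degree_sw {H : SimpleGraph (Fin n)} {a b c e : Fin n} (hab : H.Adj a b) (hce : H.Adj c e)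
    (hac : ¬ H.Adj a c) (hbe : ¬ H.Adj b e) (hac' : a ≠ c) (hbe' : b ≠ e)
    (hae : a ≠ e) (hbc : b ≠ c) (v : Fin n) :
    (sw H a b c e).degree v = H.degree v := by
  by_cases hva : v = a
  · subst hva; exact degree_sw_a hab hac hac' hae
  by_cases hvb : v = b
  · subst hvb
    rw [← sw_flip]
    exact degree_sw_a hab.symm hbe hbe' hbc
  by_cases hvc : v = c
  · subst hvc
    rw [← sw_comm]
    exact degree_sw_a hce (fun h => hac h.symm) hac'.symm hbc.symm
  by_cases hve : v = e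
  · subst hve
    rw [← sw_comm, ← sw_flip]
    exact degree_sw_a hce.symm (fun h => hbe h.symm) hbe'.symm hae.symm
  have h : (sw H a b c e).neighborFinset v = H.neighborFinset v := by
    ext y
    rw [SimpleGraph.mem_neighborFinset, SimpleGraph.mem_neighborFinset, sw_adj]
    constructor
    · rintro ⟨hxy, ⟨h1, h2, h3⟩ | h2 | h2⟩
      · exact h1
      · rw [Sym2.eq_iff] at h2
        rcases h2 with ⟨h3, -⟩ | ⟨h3, -⟩
        · exact absurd h3 hva
        · exact absurd h3 hvc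
      · rw [Sym2.eq_iff] at h2
        rcases h2 with ⟨h3, -⟩ | ⟨h3, -⟩
        · exact absurd h3 hvb
        · exact absurd h3 hve
    · intro h2
      refine ⟨h2.ne, Or.inl ⟨h2, ?_, ?_⟩⟩
      · intro h3
        rw [Sym2.eq_iff] at h3
        rcases h3 with ⟨h4, -⟩ | ⟨h4, -⟩
        · exact hva h4
        · exact hvb h4
      · intro h3
        rw [Sym2.eq_iff] at h3
        rcases h3 with ⟨h4, -⟩ | ⟨h4, -⟩
        · exact hvc h4
        · exact hve h4
  rw [← SimpleGraph.card_neighborFinset_eq_degree, ← SimpleGraph.card_neighborFinset_eq_degree, h]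

/-- ordered adjacent pairs inside `S` -/
noncomputable def QS (S : Finset (Fin n)) (H : SimpleGraph (Fin n)) : Finset (Fin n × Fin n) :=
  (S ×ˢ S).filter (fun p => H.Adj p.1 p.2)

/-- adjacent pairs from `S` to its complement -/
noncomputable def XS (S : Finset (Fin n)) (H : SimpleGraph (Fin n)) : Finset (Fin n × Fin n) :=
  (S ×ˢ Sᶜ).filter (fun p => H.Adj p.1 p.2)

theorem card_filter_prod (S T : Finset (Fin n)) (H : SimpleGraph (Fin n)) :
    ((S ×ˢ T).filter (fun p => H.Adj p.1 p.2)).card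
      = ∑ a ∈ S, (T.filter (fun y => H.Adj a y)).card := by
  rw [Finset.card_filter, Finset.sum_product]
  apply Finset.sum_congr rfl
  intro a _
  rw [Finset.card_filter]

theorem card_adj_filter (H : SimpleGraph (Fin n)) (a : Fin n) :
    (Finset.univ.filter (fun y => H.Adj a y)).card = H.degree a := by
  rw [← SimpleGraph.card_neighborFinset_eq_degree]
  congr 1
  ext y
  simp

theorem card_QS_add_card_XS {d : ℕ} {S : Finset (Fin n)} {H : SimpleGraph (Fin n)}
    (hreg : ∀ v, H.degree v = d) : (QS S H).card + (XS S H).card = d * S.card := by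
  unfold QS XS
  rw [card_filter_prod, card_filter_prod, ← Finset.sum_add_distrib]
  have h : ∀ a ∈ S, (S.filter (fun y => H.Adj a y)).card + (Sᶜ.filter (fun y => H.Adj a y)).card
      = d := by
    intro a _
    rw [← hreg a, ← card_adj_filter, ← Finset.card_union_of_disjoint]
    · congr 1
      rw [← Finset.filter_union, Finset.union_compl]
    · exact Finset.disjoint_filter_filter disjoint_compl_right
  rw [Finset.sum_congr rfl h, Finset.sum_const, smul_eq_mul, mul_comm]

theorem card_QS_sw {H : SimpleGraph (Fin n)} {S : Finset (Fin n)} {a b c e : Fin n}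
    (ha : a ∈ S) (hb : b ∉ S) (hc : c ∈ S) (he : e ∉ S)
    (hac : ¬ H.Adj a c) (hac' : a ≠ c) :
    (QS S (sw H a b c e)).card = (QS S H).card + 2 := by
  have h : QS S (sw H a b c e) = insert (a, c) (insert (c, a) (QS S H)) := by
    ext ⟨x, y⟩
    simp only [QS, Finset.mem_filter, Finset.mem_product, Finset.mem_insert, Prod.mk.injEq,
      sw_adj]
    constructor
    · rintro ⟨⟨hx, hy⟩, hxy, ⟨h1, -⟩ | h2 | h2⟩
      · exact Or.inr (Or.inr ⟨⟨hx, hy⟩, h1⟩)
      · rw [Sym2.eq_iff] at h2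
        rcases h2 with h3 | h3
        · exact Or.inl h3
        · exact Or.inr (Or.inl h3)
      · rw [Sym2.eq_iff] at h2
        rcases h2 with ⟨h3, -⟩ | ⟨h3, -⟩
        · rw [h3] at hx; exact absurd hx hb
        · rw [h3] at hx; exact absurd hx he
    · rintro (⟨rfl, rfl⟩ | ⟨rfl, rfl⟩ | ⟨⟨hx, hy⟩, h1⟩)
      · exact ⟨⟨ha, hc⟩, hac', Or.inr (Or.inl rfl)⟩
      · exact ⟨⟨hc, ha⟩, hac'.symm, Or.inr (Or.inl Sym2.eq_swap)⟩
      · refine ⟨⟨hx, hy⟩, h1.ne, Or.inl ⟨h1, ?_, ?_⟩⟩
        · intro h3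
          rw [Sym2.eq_iff] at h3
          rcases h3 with ⟨-, h4⟩ | ⟨h4, -⟩
          · rw [h4] at hy; exact hb hy
          · rw [h4] at hx; exact hb hx
        · intro h3
          rw [Sym2.eq_iff] at h3
          rcases h3 with ⟨-, h4⟩ | ⟨h4, -⟩
          · rw [h4] at hy; exact he hy
          · rw [h4] at hx; exact he hx
  have h1 : (c, a) ∉ QS S H := by
    simp only [QS, Finset.mem_filter]
    rintro ⟨-, h2⟩
    exact hac h2.symm
  have h2 : (a, c) ∉ insert (c, a) (QS S H) := by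
    rw [Finset.mem_insert, Prod.mk.injEq]
    rintro (⟨h3, -⟩ | h3)
    · exact hac' h3
    · simp only [QS, Finset.mem_filter] at h3
      exact hac h3.2
  rw [h, Finset.card_insert_of_notMem h2, Finset.card_insert_of_notMem h1]

/-- classes of regular graphs by number of edges inside `S` -/
noncomputable def Cl (d : ℕ) (S : Finset (Fin n)) (j : ℕ) : Finset (SimpleGraph (Fin n)) :=
  Finset.univ.filter (fun H => (∀ v, H.degree v = d) ∧ (QS S H).card = 2 * j)

/-- forward switching data -/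
noncomputable def FW (S : Finset (Fin n)) (H : SimpleGraph (Fin n)) :
    Finset ((Fin n × Fin n) × (Fin n × Fin n)) :=
  ((XS S H) ×ˢ (XS S H)).filter (fun p => p.1.1 ≠ p.2.1 ∧ p.1.2 ≠ p.2.2 ∧
    ¬ H.Adj p.1.1 p.2.1 ∧ ¬ H.Adj p.1.2 p.2.2)

theorem mem_FW {S : Finset (Fin n)} {H : SimpleGraph (Fin n)} {a b c e : Fin n} :
    ((a, b), (c, e)) ∈ FW S H ↔ ((a ∈ S ∧ b ∉ S ∧ H.Adj a b) ∧ (c ∈ S ∧ e ∉ S ∧ H.Adj c e)) ∧
      a ≠ c ∧ b ≠ e ∧ ¬ H.Adj a c ∧ ¬ H.Adj b e := by
  simp only [FW, XS, Finset.mem_filter, Finset.mem_product, Finset.mem_compl]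
  tauto

/-- the double counting inequality -/
theorem double_count (d : ℕ) (S : Finset (Fin n)) (j : ℕ) :
    ∑ H ∈ Cl d S j, (FW S H).card ≤ (Cl d S (j + 1)).card * (2 * (j + 1) * (d * n)) := by
  have h1 : ∑ H ∈ Cl d S j, (FW S H).card = ((Cl d S j).sigma (fun H => FW S H)).card := by
    rw [Finset.card_sigma]
  have h2 : (Cl d S (j + 1)).card * (2 * (j + 1) * (d * n))
      = ((Cl d S (j + 1)).sigma (fun H => (QS S H) ×ˢ
          (((Finset.univ : Finset (Fin n)) ×ˢ (Finset.univ : Finset (Fin n))).filter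
            (fun p => H.Adj p.1 p.2)))).card := by
    rw [Finset.card_sigma]
    have : ∀ H ∈ Cl d S (j + 1), ((QS S H) ×ˢ
          (((Finset.univ : Finset (Fin n)) ×ˢ (Finset.univ : Finset (Fin n))).filter
            (fun p => H.Adj p.1 p.2))).card = 2 * (j + 1) * (d * n) := by
      intro H hH
      simp only [Cl, Finset.mem_filter, Finset.mem_univ, true_and] at hH
      rw [Finset.card_product, hH.2, card_filter_prod]
      congr 1
      have : ∀ a ∈ (Finset.univ : Finset (Fin n)),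
          (Finset.univ.filter (fun y => H.Adj a y)).card = d := by
        intro a _
        rw [card_adj_filter, hH.1 a]
      rw [Finset.sum_congr rfl this, Finset.sum_const, smul_eq_mul, Finset.card_univ,
        Fintype.card_fin, mul_comm]
    rw [Finset.sum_congr rfl this, Finset.sum_const, smul_eq_mul]
  rw [h1, h2]
  apply Finset.card_le_card_of_injOn
    (fun z => ⟨sw z.1 z.2.1.1 z.2.1.2 z.2.2.1 z.2.2.2,
      ((z.2.1.1, z.2.2.1), (z.2.1.2, z.2.2.2))⟩)
  · rintro ⟨H, ⟨⟨a, b⟩, ⟨c, e⟩⟩⟩ hz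
    simp only [Finset.coe_sigma, Set.mem_sigma_iff, Finset.mem_coe] at hz ⊢
    obtain ⟨hH, hF⟩ := hz
    rw [mem_FW] at hF
    obtain ⟨⟨⟨ha, hb, hab⟩, ⟨hc, he, hce⟩⟩, hac', hbe', hac, hbe⟩ := hF
    simp only [Cl, Finset.mem_filter, Finset.mem_univ, true_and] at hH ⊢
    have hae : a ≠ e := by rintro rfl; exact he ha
    have hbc : b ≠ c := by rintro rfl; exact hb hc
    refine ⟨⟨fun v => ?_, ?_⟩, ?_⟩
    · rw [degree_sw hab hce hac hbe hac' hbe' hae hbc, hH.1 v]
    · rw [card_QS_sw ha hb hc he hac hac', hH.2]; ring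
    · simp only [QS, Finset.mem_product, Finset.mem_filter, Finset.mem_univ, true_and, sw_adj]
      exact ⟨⟨⟨ha, hc⟩, hac', Or.inr (Or.inl trivial)⟩, hbe', Or.inr (Or.inr trivial)⟩
  · rintro ⟨H, ⟨⟨a, b⟩, ⟨c, e⟩⟩⟩ hz ⟨H', ⟨⟨a', b'⟩, ⟨c', e'⟩⟩⟩ hz' heq
    simp only [Finset.coe_sigma, Set.mem_sigma_iff, Finset.mem_coe] at hz hz'
    obtain ⟨hH, hF⟩ := hz
    obtain ⟨hH', hF'⟩ := hz'
    rw [mem_FW] at hF hF'
    obtain ⟨⟨⟨ha, hb, hab⟩, ⟨hc, he, hce⟩⟩, hac', hbe', hac, hbe⟩ := hF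
    obtain ⟨⟨⟨ha2, hb2, hab2⟩, ⟨hc2, he2, hce2⟩⟩, hac2', hbe2', hac2, hbe2⟩ := hF'
    simp only [Sigma.mk.injEq, heq_eq_eq, Prod.mk.injEq] at heq
    obtain ⟨h3, ⟨⟨rfl, rfl⟩, ⟨rfl, rfl⟩⟩⟩ := heq
    have h4 := sw_sw hab hce hac hbe hac' hbe'
    have h5 := sw_sw hab2 hce2 hac2 hbe2 hac2' hbe2'
    have : H = H' := by rw [← h4, ← h5, h3]
    subst this
    rfl

/-- number of directed edges starting in `T` -/
theorem card_start (d : ℕ) {H : SimpleGraph (Fin n)} (hreg : ∀ v, H.degree v = d)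
    (T : Finset (Fin n)) :
    ((T ×ˢ (Finset.univ : Finset (Fin n))).filter (fun p => H.Adj p.1 p.2)).card = T.card * d := by
  rw [card_filter_prod]
  have : ∀ a ∈ T, ((Finset.univ : Finset (Fin n)).filter (fun y => H.Adj a y)).card = d := by
    intro a _
    rw [card_adj_filter, hreg a]
  rw [Finset.sum_congr rfl this, Finset.sum_const, smul_eq_mul]

theorem card_end (d : ℕ) {H : SimpleGraph (Fin n)} (hreg : ∀ v, H.degree v = d)
    (T : Finset (Fin n)) :
    (((Finset.univ : Finset (Fin n)) ×ˢ T).filter (fun p => H.Adj p.1 p.2)).card = T.card * d := by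
  rw [← card_start d hreg T]
  apply Finset.card_bij (fun p _ => (p.2, p.1))
  · rintro ⟨x, y⟩ hp
    simp only [Finset.mem_filter, Finset.mem_product, Finset.mem_univ, true_and, and_true] at hp ⊢
    exact ⟨hp.1, hp.2.symm⟩
  · rintro ⟨x, y⟩ _ ⟨x', y'⟩ _ h
    simp only [Prod.mk.injEq] at h ⊢
    exact ⟨h.2, h.1⟩
  · rintro ⟨x, y⟩ hp
    simp only [Finset.mem_filter, Finset.mem_product, Finset.mem_univ, true_and, and_true] at hp
    refine ⟨(y, x), ?_, rfl⟩
    simp only [Finset.mem_filter, Finset.mem_product, Finset.mem_univ, true_and]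
    exact ⟨hp.1, hp.2.symm⟩

/-- lower bound for the number of forward switchings -/
theorem card_FW_ge {d : ℕ} {S : Finset (Fin n)} {H : SimpleGraph (Fin n)}
    (hreg : ∀ v, H.degree v = d) :
    (XS S H).card * ((XS S H).card - 2 * ((d + 1) * d)) ≤ (FW S H).card := by
  have h1 : (FW S H).card = ∑ p ∈ XS S H, ((XS S H).filter (fun q => p.1 ≠ q.1 ∧ p.2 ≠ q.2 ∧
    ¬ H.Adj p.1 q.1 ∧ ¬ H.Adj p.2 q.2)).card := by
    unfold FW
    rw [Finset.card_filter, Finset.sum_product]
    apply Finset.sum_congr rfl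
    intro a _
    rw [Finset.card_filter]
  rw [h1, ← smul_eq_mul]
  apply Finset.card_nsmul_le_sum
  rintro ⟨a, b⟩ _
  have h2 : (XS S H).card ≤ ((XS S H).filter (fun q => a ≠ q.1 ∧ b ≠ q.2 ∧
    ¬ H.Adj a q.1 ∧ ¬ H.Adj b q.2)).card + (2 * ((d + 1) * d)) := by
    have h3 : XS S H ⊆ (XS S H).filter (fun q => a ≠ q.1 ∧ b ≠ q.2 ∧
        ¬ H.Adj a q.1 ∧ ¬ H.Adj b q.2) ∪
        (((insert a (H.neighborFinset a)) ×ˢ (Finset.univ : Finset (Fin n))).filter
          (fun p => H.Adj p.1 p.2) ∪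
        ((Finset.univ : Finset (Fin n)) ×ˢ (insert b (H.neighborFinset b))).filter
          (fun p => H.Adj p.1 p.2)) := by
      rintro ⟨c, e⟩ hq
      have hce : H.Adj c e := by
        simp only [XS, Finset.mem_filter] at hq
        exact hq.2
      simp only [Finset.mem_union, Finset.mem_filter, Finset.mem_product, Finset.mem_insert,
        SimpleGraph.mem_neighborFinset, Finset.mem_univ, true_and, and_true]
      by_cases h4 : c = a ∨ H.Adj a c
      · exact Or.inr (Or.inl ⟨h4, hce⟩)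
      · by_cases h5 : e = b ∨ H.Adj b e
        · exact Or.inr (Or.inr ⟨h5, hce⟩)
        · push Not at h4 h5
          exact Or.inl ⟨hq, h4.1.symm, h5.1.symm, h4.2, h5.2⟩
    have h4 := (Finset.card_le_card h3).trans (Finset.card_union_le _ _)
    have h5 := Finset.card_union_le
        (((insert a (H.neighborFinset a)) ×ˢ (Finset.univ : Finset (Fin n))).filter
          (fun p => H.Adj p.1 p.2))
        (((Finset.univ : Finset (Fin n)) ×ˢ (insert b (H.neighborFinset b))).filter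
          (fun p => H.Adj p.1 p.2))
    rw [card_start d hreg, card_end d hreg] at h5
    have h6 : (insert a (H.neighborFinset a)).card ≤ d + 1 := by
      have := Finset.card_insert_le a (H.neighborFinset a)
      rw [SimpleGraph.card_neighborFinset_eq_degree, hreg a] at this
      exact this
    have h7 : (insert b (H.neighborFinset b)).card ≤ d + 1 := by
      have := Finset.card_insert_le b (H.neighborFinset b)
      rw [SimpleGraph.card_neighborFinset_eq_degree, hreg b] at this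
      exact this
    have h8 := Nat.mul_le_mul_right d h6
    have h9 := Nat.mul_le_mul_right d h7
    omega
  simp only
  omega

theorem ratio_step {d : ℕ} {S : Finset (Fin n)} {j : ℕ} (hd : 0 < d) (hn : 0 < n)
    (hs : 8 * (d + 1) ≤ S.card) (hj : 32 * (j + 1) * n ≤ d * S.card ^ 2) :
    2 * (Cl d S j).card ≤ (Cl d S (j + 1)).card := by
  have hsn : S.card ≤ n := by
    have := Finset.card_le_univ S
    rwa [Fintype.card_fin] at this
  have h1 := double_count d S j
  have hj2 : 32 * (j + 1) ≤ d * S.card := by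
    have : 32 * (j + 1) * n ≤ (d * S.card) * n := by
      calc 32 * (j + 1) * n ≤ d * S.card ^ 2 := hj
        _ = d * S.card * S.card := by ring
        _ ≤ d * S.card * n := Nat.mul_le_mul_left _ hsn
    exact Nat.le_of_mul_le_mul_right this hn
  have h2 : ∀ H ∈ Cl d S j, d ^ 2 * S.card ^ 2 ≤ 8 * (FW S H).card := by
    intro H hH
    simp only [Cl, Finset.mem_filter, Finset.mem_univ, true_and] at hH
    have h3 := card_QS_add_card_XS (S := S) hH.1
    rw [hH.2] at h3
    have h4 := card_FW_ge (S := S) hH.1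
    have h5 : d * S.card ≤ 2 * (XS S H).card := by omega
    have h6 : d * S.card ≤ 4 * ((XS S H).card - 2 * ((d + 1) * d)) := by
      have h7 := Nat.mul_le_mul_left d hs
      have h8 : d * (8 * (d + 1)) = 8 * ((d + 1) * d) := by ring
      rw [h8] at h7
      omega
    calc d ^ 2 * S.card ^ 2 = (d * S.card) * (d * S.card) := by ring
      _ ≤ (2 * (XS S H).card) * (4 * ((XS S H).card - 2 * ((d + 1) * d))) :=
          Nat.mul_le_mul h5 h6
      _ = 8 * ((XS S H).card * ((XS S H).card - 2 * ((d + 1) * d))) := by ring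
      _ ≤ 8 * (FW S H).card := Nat.mul_le_mul_left _ h4
  have h3 : (Cl d S j).card * (d ^ 2 * S.card ^ 2) ≤ 8 * ∑ H ∈ Cl d S j, (FW S H).card := by
    rw [Finset.mul_sum, ← smul_eq_mul]
    exact Finset.card_nsmul_le_sum _ _ _ h2
  have h4 : (Cl d S j).card * (d ^ 2 * S.card ^ 2)
      ≤ 8 * ((Cl d S (j + 1)).card * (2 * (j + 1) * (d * n))) :=
    h3.trans (Nat.mul_le_mul_left 8 h1)
  have h5 : (Cl d S j).card * (d * (32 * (j + 1) * n)) ≤ (Cl d S j).card * (d ^ 2 * S.card ^ 2) := by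
    apply Nat.mul_le_mul_left
    calc d * (32 * (j + 1) * n) ≤ d * (d * S.card ^ 2) := Nat.mul_le_mul_left _ hj
      _ = _ := by ring
  have h6 : (2 * (Cl d S j).card) * (16 * (j + 1) * (d * n))
      ≤ (Cl d S (j + 1)).card * (16 * (j + 1) * (d * n)) := by
    calc (2 * (Cl d S j).card) * (16 * (j + 1) * (d * n))
        = (Cl d S j).card * (d * (32 * (j + 1) * n)) := by ring
      _ ≤ 8 * ((Cl d S (j + 1)).card * (2 * (j + 1) * (d * n))) := h5.trans h4
      _ = _ := by ring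
  exact Nat.le_of_mul_le_mul_right h6 (by positivity)

theorem pow_ratio {d : ℕ} {S : Finset (Fin n)} (hd : 0 < d) (hn : 0 < n)
    (hs : 8 * (d + 1) ≤ S.card) : ∀ J : ℕ, 32 * J * n ≤ d * S.card ^ 2 →
    2 ^ J * (Cl d S 0).card ≤ (Cl d S J).card := by
  intro J
  induction J with
  | zero => intro _; simp
  | succ J ih =>
    intro hJ
    have h1 : 32 * J * n ≤ d * S.card ^ 2 := by
      refine le_trans ?_ hJ
      gcongr
      omega
    have h2 := ih h1
    have h3 := ratio_step hd hn hs hJ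
    calc 2 ^ (J + 1) * (Cl d S 0).card = 2 * (2 ^ J * (Cl d S 0).card) := by ring
      _ ≤ 2 * (Cl d S J).card := Nat.mul_le_mul_left 2 h2
      _ ≤ _ := h3

/-- number of regular graphs in which `S` is independent -/
theorem indep_count {d : ℕ} {S : Finset (Fin n)} (hd : 0 < d) (hn : 0 < n)
    (hs : 8 * (d + 1) ≤ S.card) {J : ℕ} (hJ : 32 * J * n ≤ d * S.card ^ 2) :
    2 ^ J * (Finset.univ.filter (fun H : SimpleGraph (Fin n) => (∀ v, H.degree v = d) ∧
      ∀ x ∈ S, ∀ y ∈ S, ¬ H.Adj x y)).card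
      ≤ (Finset.univ.filter (fun H : SimpleGraph (Fin n) => ∀ v, H.degree v = d)).card := by
  have h1 : Finset.univ.filter (fun H : SimpleGraph (Fin n) => (∀ v, H.degree v = d) ∧
      ∀ x ∈ S, ∀ y ∈ S, ¬ H.Adj x y) ⊆ Cl d S 0 := by
    intro H hH
    simp only [Cl, Finset.mem_filter, Finset.mem_univ, true_and] at hH ⊢
    refine ⟨hH.1, ?_⟩
    rw [Nat.mul_zero, Finset.card_eq_zero, QS, Finset.filter_eq_empty_iff]
    rintro ⟨x, y⟩ hxy
    rw [Finset.mem_product] at hxy
    exact hH.2 x hxy.1 y hxy.2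
  have h2 : Cl d S J ⊆ Finset.univ.filter (fun H : SimpleGraph (Fin n) =>
      ∀ v, H.degree v = d) := by
    intro H hH
    simp only [Cl, Finset.mem_filter, Finset.mem_univ, true_and] at hH ⊢
    exact hH.1
  calc _ ≤ 2 ^ J * (Cl d S 0).card := Nat.mul_le_mul_left _ (Finset.card_le_card h1)
    _ ≤ (Cl d S J).card := pow_ratio hd hn hs J hJ
    _ ≤ _ := Finset.card_le_card h2

end Pool.Agent.Helper49.Switch
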