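import Mathlib
import Pool.Agent.Helper49.Switch

set_option autoImplicit false
open Classical
open Finset Filter Topology

namespace Pool.Agent.Helper49.Switch

theorem choose_bound {n s Y : ℕ} (hs : 0 < s) (hn : n ≤ 2 * Y * s) :
    ((n.choose s : ℕ) : ℝ) ≤ (6 * Y : ℝ) ^ s := by
  have h1 : ((n.choose s : ℕ) : ℝ) ≤ (n : ℝ) ^ s / (s.factorial : ℝ) :=
    Nat.choose_le_pow_div s n
  have h2 : (s : ℝ) ^ s / (s.factorial : ℝ) ≤ Real.exp s :=
    Real.pow_div_factorial_le_exp (s : ℝ) (by positivity) s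
  have h3 : Real.exp s ≤ 3 ^ s := by
    have h4 : Real.exp s = (Real.exp 1) ^ s := by rw [← Real.exp_nat_mul]; simp
    rw [h4]
    apply pow_le_pow_left₀ (Real.exp_pos 1).le
    have := Real.exp_one_lt_d9
    linarith
  have hnR : (n : ℝ) ≤ 2 * Y * s := by exact_mod_cast hn
  have hf : (0 : ℝ) < s.factorial := by exact_mod_cast Nat.factorial_pos s
  calc ((n.choose s : ℕ) : ℝ) ≤ (n : ℝ) ^ s / (s.factorial : ℝ) := h1
    _ ≤ (2 * Y * s : ℝ) ^ s / (s.factorial : ℝ) := by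
        apply div_le_div_of_nonneg_right _ hf.le
        exact pow_le_pow_left₀ (by positivity) hnR s
    _ = (2 * Y : ℝ) ^ s * ((s : ℝ) ^ s / (s.factorial : ℝ)) := by rw [mul_pow, mul_div_assoc]
    _ ≤ (2 * Y : ℝ) ^ s * 3 ^ s := by
        apply mul_le_mul_of_nonneg_left (h2.trans h3) (by positivity)
    _ = (6 * Y : ℝ) ^ s := by rw [← mul_pow]; ring

theorem uniform_bound {n d Y W s : ℕ} (hd : 0 < d) (hn : 0 < n) (hY : 0 < Y)
    (hdW : d = 64 * W * Y) (hs8 : 8 * (d + 1) ≤ s) (hsY : s = n / Y) :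
    2 ^ (W * s) * (Finset.univ.filter (fun H : SimpleGraph (Fin n) => (∀ v, H.degree v = d) ∧
      ∃ I : Finset (Fin n), (∀ x ∈ I, ∀ y ∈ I, ¬ H.Adj x y) ∧ n ≤ Y * I.card)).card
      ≤ n.choose s * (Finset.univ.filter
        (fun H : SimpleGraph (Fin n) => ∀ v, H.degree v = d)).card := by
  have hs0 : 0 < s := by omega
  have hn2 : n ≤ 2 * Y * s := by
    have h1 : n < Y * (s + 1) := by
      rw [hsY]; exact Nat.lt_mul_div_succ n hY
    nlinarith
  have hJ : 32 * (W * s) * n ≤ d * s ^ 2 := by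
    rw [hdW]
    calc 32 * (W * s) * n ≤ 32 * (W * s) * (2 * Y * s) := Nat.mul_le_mul_left _ hn2
      _ = 64 * W * Y * s ^ 2 := by ring
  have hsub : Finset.univ.filter (fun H : SimpleGraph (Fin n) => (∀ v, H.degree v = d) ∧
      ∃ I : Finset (Fin n), (∀ x ∈ I, ∀ y ∈ I, ¬ H.Adj x y) ∧ n ≤ Y * I.card)
      ⊆ (Finset.powersetCard s (Finset.univ : Finset (Fin n))).biUnion
        (fun S => Finset.univ.filter (fun H : SimpleGraph (Fin n) => (∀ v, H.degree v = d) ∧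
          ∀ x ∈ S, ∀ y ∈ S, ¬ H.Adj x y)) := by
    intro H hH
    simp only [Finset.mem_filter, Finset.mem_univ, true_and, Finset.mem_biUnion,
      Finset.mem_powersetCard] at hH ⊢
    obtain ⟨hreg, I, hI, hIc⟩ := hH
    have hsI : s ≤ I.card := by
      rw [hsY]
      exact Nat.div_le_of_le_mul hIc
    obtain ⟨S, hSI, hSc⟩ := Finset.exists_subset_card_eq hsI
    exact ⟨S, ⟨Finset.subset_univ _, hSc⟩, hreg, fun x hx y hy => hI x (hSI hx) y (hSI hy)⟩
  have h1 := (Finset.card_le_card hsub).trans Finset.card_biUnion_le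
  calc _ ≤ 2 ^ (W * s) * ∑ S ∈ Finset.powersetCard s (Finset.univ : Finset (Fin n)),
        (Finset.univ.filter (fun H : SimpleGraph (Fin n) => (∀ v, H.degree v = d) ∧
          ∀ x ∈ S, ∀ y ∈ S, ¬ H.Adj x y)).card := Nat.mul_le_mul_left _ h1
    _ = ∑ S ∈ Finset.powersetCard s (Finset.univ : Finset (Fin n)), 2 ^ (W * s) *
        (Finset.univ.filter (fun H : SimpleGraph (Fin n) => (∀ v, H.degree v = d) ∧
          ∀ x ∈ S, ∀ y ∈ S, ¬ H.Adj x y)).card := by rw [Finset.mul_sum]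
    _ ≤ ∑ S ∈ Finset.powersetCard s (Finset.univ : Finset (Fin n)),
        (Finset.univ.filter (fun H : SimpleGraph (Fin n) => ∀ v, H.degree v = d)).card := by
        apply Finset.sum_le_sum
        intro S hS
        have hSc := (Finset.mem_powersetCard.1 hS).2
        apply indep_count hd hn (by rw [hSc]; exact hs8)
        rw [hSc]; exact hJ
    _ = _ := by
        rw [Finset.sum_const, Finset.card_powersetCard, Finset.card_univ, Fintype.card_fin,
          smul_eq_mul]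

theorem uniform_side {d Y W : ℕ} (hd : 0 < d) (hY : 0 < Y)
    (hdW : d = 64 * W * Y) (hW : 12 * Y ≤ 2 ^ W) :
    Tendsto (fun n : ℕ => ((Finset.univ.filter (fun H : SimpleGraph (Fin n) =>
      (∀ v, H.degree v = d) ∧
      ∃ I : Finset (Fin n), (∀ x ∈ I, ∀ y ∈ I, ¬ H.Adj x y) ∧ n ≤ Y * I.card)).card : ℝ)
      / ((Finset.univ.filter (fun H : SimpleGraph (Fin n) => ∀ v, H.degree v = d)).card : ℝ))
      atTop (𝓝 0) := by
  have hlim : Tendsto (fun n : ℕ => ((1 : ℝ) / 2) ^ (n / Y)) atTop (𝓝 0) :=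
    (tendsto_pow_atTop_nhds_zero_of_lt_one (by norm_num) (by norm_num)).comp
      (Nat.tendsto_div_const_atTop hY.ne')
  refine squeeze_zero' (Eventually.of_forall fun n => by positivity) ?_ hlim
  filter_upwards [(Nat.tendsto_div_const_atTop hY.ne').eventually_ge_atTop (8 * (d + 1)),
    eventually_gt_atTop 0] with n hn8 hn
  have hs0 : 0 < n / Y := by omega
  obtain ⟨s, hs⟩ : ∃ s, s = n / Y := ⟨_, rfl⟩
  rw [← hs] at hn8 hs0 ⊢
  have h1 := uniform_bound hd hn hY hdW hn8 hs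
  have hn2 : n ≤ 2 * Y * s := by
    have h1 : n < Y * (s + 1) := by
      rw [hs]; exact Nat.lt_mul_div_succ n hY
    nlinarith
  have h2 := choose_bound hs0 hn2
  obtain ⟨R, hR⟩ : ∃ R : ℕ, R = (Finset.univ.filter
    (fun H : SimpleGraph (Fin n) => ∀ v, H.degree v = d)).card := ⟨_, rfl⟩
  obtain ⟨B, hB⟩ : ∃ B : ℕ, B = (Finset.univ.filter (fun H : SimpleGraph (Fin n) =>
      (∀ v, H.degree v = d) ∧
      ∃ I : Finset (Fin n), (∀ x ∈ I, ∀ y ∈ I, ¬ H.Adj x y) ∧ n ≤ Y * I.card)).card := ⟨_, rfl⟩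
  rw [← hR, ← hB] at h1 ⊢
  rcases Nat.eq_zero_or_pos R with hR0 | hR0
  · rw [hR0]; simp
  · have hRR : (0 : ℝ) < R := by exact_mod_cast hR0
    rw [div_le_iff₀ hRR]
    have h3 : (2 : ℝ) ^ (W * s) * B ≤ ((n.choose s : ℕ) : ℝ) * R := by exact_mod_cast h1
    have h4 : (2 : ℝ) ^ (W * s) * B ≤ (6 * Y : ℝ) ^ s * R :=
      h3.trans (mul_le_mul_of_nonneg_right h2 hRR.le)
    have h5 : (12 * Y : ℝ) ^ s ≤ (2 : ℝ) ^ (W * s) := by
      rw [pow_mul]
      apply pow_le_pow_left₀ (by positivity)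
      exact_mod_cast hW
    have h6 : (12 * Y : ℝ) ^ s = (2 : ℝ) ^ s * (6 * Y : ℝ) ^ s := by
      rw [← mul_pow]; ring
    have hYs : (0 : ℝ) < (6 * Y : ℝ) ^ s := by positivity
    have h7 : (2 : ℝ) ^ s * (6 * Y : ℝ) ^ s * B ≤ (6 * Y : ℝ) ^ s * R := by
      rw [← h6]
      exact (mul_le_mul_of_nonneg_right h5 (by positivity)).trans h4
    have h8 : (2 : ℝ) ^ s * B ≤ R := by
      have : (6 * Y : ℝ) ^ s * ((2 : ℝ) ^ s * B) ≤ (6 * Y : ℝ) ^ s * R := by linarith
      exact le_of_mul_le_mul_left this hYs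
    rw [div_pow, one_pow, one_div_mul_eq_div, le_div_iff₀ (by positivity)]
    linarith

end Pool.Agent.Helper49.Switch
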