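import Mathlib
import Pool.Agent.Helper49.StarSide

set_option autoImplicit false
open Classical
open Finset Filter

namespace Pool.Agent.Helper49.Star

theorem star_side {d X Y Z : ℕ} {θ : ℝ} (hdeven : Even d) (hdpos : 0 < d)
    (hYXZ : Y = X * Z) (hZ : 3 ≤ Z) (hXpos : 1 ≤ X)
    (hθ : 0 < θ) (hθ1 : θ ≤ 1 / 1000000) (hT : θ ^ 2 * d = 4096)
    (hθD : θ * d = X) (hX1 : Real.log (4 * X) ≤ 1254) (hX2 : 8 * Real.exp 1220 ≤ X)
    (hX3 : 512 * √(X : ℝ) ≤ Real.exp 675) (hY : Real.exp 2390 * 8 ≤ Y) :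
    ∃ c : ℝ, 0 < c ∧ ∀ᶠ j : ℕ in atTop,
      c ≤ succp d (Y * j - j) (⊥ : SimpleGraph (Fin (Y * j))) := by
  obtain ⟨K2, hK2⟩ : ∃ K2 : ℝ, K2 = b0 θ d * Real.exp (θ * d) * cc θ ^ 2 * (d : ℝ) ^ 2 * (2 * X)
      + (2 * (d * Real.exp (2 / 3 * θ * d))) ^ 2 := ⟨_, rfl⟩
  have hb := b0_pos θ d
  refine ⟨cd d * (b0 θ d / 4), mul_pos (cd_pos d) (by linarith), ?_⟩
  have hY0 : 0 < Y := by rw [hYXZ]; exact Nat.mul_pos (by omega) (by omega)
  filter_upwards [eventually_ge_atTop (d + Kd d + 1000),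
    (tendsto_natCast_atTop_atTop (R := ℝ)).eventually_ge_atTop (8 * K2 / b0 θ d)] with j hj hj2
  obtain ⟨n, hn⟩ : ∃ n, n = Y * j := ⟨_, rfl⟩
  rw [← hn]
  have hXR : (1 : ℝ) ≤ X := by exact_mod_cast hXpos
  have hX0 : (0 : ℝ) < X := by linarith
  have hjn : j ≤ n := by rw [hn]; exact Nat.le_mul_of_pos_left j hY0
  have hn0 : 0 < n := by omega
  have hnR : (0 : ℝ) < n := by exact_mod_cast hn0
  have hZj : Z * j ≤ n := by
    rw [hn, hYXZ, mul_assoc]; exact Nat.le_mul_of_pos_left _ (by omega)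
  have h3j : 3 * j ≤ Z * j := Nat.mul_le_mul_right j hZ
  obtain ⟨tstar, hts⟩ : ∃ tstar, tstar = n - Z * j := ⟨_, rfl⟩
  have htsR : (tstar : ℝ) = (n : ℝ) - Z * j := by
    rw [hts, Nat.cast_sub hZj]; push_cast; ring
  have hnXZ : (n : ℝ) = X * (Z * j) := by
    rw [hn, hYXZ]; push_cast; ring
  have hZj0 : (0 : ℝ) < Z * j := by
    have : 0 < Z * j := by omega
    exact_mod_cast this
  have hX' : (n : ℝ) ≤ X * ((n : ℝ) - tstar) := by
    rw [htsR]; apply le_of_eq; rw [← sub_add, sub_self, zero_add]; exact hnXZ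
  obtain ⟨hE0, hE1⟩ := EE_bounds hθ hθ1 hT hXR hX1
  have hη : (0 : ℝ) ≤ 2 / 3 * θ := by positivity
  have hcc : 0 ≤ cc θ := cc_nonneg hθ.le
  have hmain := main_induction (n := n) (d := d) (tstar := tstar) (e := j) (Xr := X)
    (η := 2 / 3 * θ) (E := EE θ d X) (κ₁ := b0 θ d / 8)
    (K := b0 θ d * Real.exp (θ * d) * cc θ ^ 2) (K2 := K2) (φ := phi θ d)
    (cost := costf (b0 θ d) n)
    (hdeven.mul_right n) hn0 (by omega) (by omega) hX' hX0 hη hE0
    (fun l k _ hlD _ h => hE_param hθ hXR hlD h)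
    (fun l N _ hN => phi_le_one hθ (by exact_mod_cast hN))
    (fun l q N hl hq _ hN => phi_sub hθ rfl hl hq hN)
    (fun t => costf_nonneg hb.le n t)
    (fun t ht l k _ _ hlow h => hcost_param hθ hθ1 hT hXR hX1 (by omega) hlow h)
    (by linarith)
    (by
      intro l N _ hN hl
      have h1 : (d : ℝ) * tstar / n = d * (1 - 1 / X) := by
        rw [htsR, hnXZ]
        obtain ⟨w, hw⟩ : ∃ w : ℝ, w = Z * j := ⟨_, rfl⟩
        rw [← hw] at hZj0 ⊢
        field_simp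
      rw [h1] at hl
      have h2 := hterm_param hθ hθ1 hT hXR hX1 hX2 hθD (N := N) (by exact_mod_cast hN) hl
      have h3 : (n : ℝ) - tstar = Z * j := by rw [htsR]; ring
      rw [h3]
      have h4 := mul_le_mul_of_nonneg_right h2 hZj0.le
      refine h4.trans (le_of_eq ?_)
      rw [hnXZ]; ring)
    (by positivity) (le_of_eq hK2.symm) tstar 0 (by omega) (by omega) ⊥ 0 0
    (valid_bot d)
    (by
      have := Finset.card_le_univ (uns d (⊥ : SimpleGraph (Fin n)))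
      rw [Fintype.card_fin] at this
      omega)
    (by
      have h1 : uns d (⊥ : SimpleGraph (Fin n)) = Finset.univ := by
        ext u; simp [mem_uns, hdpos]
      rw [h1, Finset.card_univ, Fintype.card_fin]
      omega)
    le_rfl (by simp [hE0])
    (by
      unfold Xsum ew
      rw [Finset.sum_congr rfl (g := fun _ => (1 : ℝ)) (fun u _ => by simp),
        Finset.sum_const, nsmul_eq_mul, mul_one, add_zero]
      have := Finset.card_le_univ (uns d (⊥ : SimpleGraph (Fin n)))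
      rw [Fintype.card_fin] at this
      exact_mod_cast this)
  rw [Nat.sub_zero] at hmain
  refine le_trans ?_ hmain
  apply mul_le_mul_of_nonneg_left _ (cd_pos d).le
  -- lower bound for the potential at time zero
  have hbet := bet_le hθ hθ1 hT
  have hb0ge := b0_ge hθ hθ1 hT
  have hP : Psum d (phi θ d) 0 (⊥ : SimpleGraph (Fin n)) = n * (1 - phi θ d 0 0) := by
    unfold Psum
    rw [Finset.sum_congr rfl (g := fun _ => 1 - phi θ d 0 0) (fun u _ => by simp),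
      Finset.sum_const, nsmul_eq_mul]
    have h1 : uns d (⊥ : SimpleGraph (Fin n)) = Finset.univ := by
      ext u; simp [mem_uns, hdpos]
    rw [h1, Finset.card_univ, Fintype.card_fin]
  have hphi0 : phi θ d 0 0 = b0 θ d * (1 - bet θ d) := by
    unfold phi ew; simp
  have hcostsum := sum_cost (b := b0 θ d) (X := X) hb.le (n := n) (tstar := tstar) (by omega)
    (by omega) hX' hX0 hX3
  have hen : (j : ℝ) / n ≤ b0 θ d / 8 := by
    have hj0 : (0 : ℝ) < j := by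
      have : 0 < j := by omega
      exact_mod_cast this
    have h2 : (j : ℝ) / n = 1 / Y := by
      rw [hn]; push_cast
      have : (Y : ℝ) ≠ 0 := by positivity
      field_simp
    rw [h2]
    have hYR : (0 : ℝ) < Y := by exact_mod_cast hY0
    rw [div_le_iff₀ hYR]
    have h3 : Real.exp (-2390) * Real.exp 2390 = 1 := by rw [← Real.exp_add]; simp
    have h4 : Real.exp (-2390) * (Real.exp 2390 * 8) ≤ b0 θ d * Y :=
      mul_le_mul hb0ge hY (by positivity) hb.le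
    have h5 : Real.exp (-2390) * (Real.exp 2390 * 8) = 8 := by
      rw [← mul_assoc, h3, one_mul]
    linarith
  have hK2n : K2 / (n : ℝ) ^ 2 * ((tstar : ℝ) - ((0 : ℕ) : ℝ)) ≤ b0 θ d / 8 := by
    have hK20 : 0 ≤ K2 := by rw [hK2]; positivity
    have h1 : ((tstar : ℝ) - ((0 : ℕ) : ℝ)) ≤ n := by
      have : (tstar : ℝ) ≤ n := by exact_mod_cast (by omega : tstar ≤ n)
      simpa using this
    have h2 : K2 / (n : ℝ) ^ 2 * ((tstar : ℝ) - ((0 : ℕ) : ℝ)) ≤ K2 / (n : ℝ) ^ 2 * n :=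
      mul_le_mul_of_nonneg_left h1 (by positivity)
    refine h2.trans ?_
    have h3 : K2 / (n : ℝ) ^ 2 * n = K2 / n := by field_simp
    rw [h3, div_le_iff₀ hnR]
    have h4 : (j : ℝ) ≤ n := by exact_mod_cast hjn
    have h5 : 8 * K2 / b0 θ d ≤ n := hj2.trans h4
    rw [div_le_iff₀ hb] at h5
    linarith
  unfold Phi
  rw [hP, hphi0]
  have e1 : ((n : ℝ) - ((0 : ℕ) : ℝ) - n * (1 - b0 θ d * (1 - bet θ d))) / n
      = b0 θ d * (1 - bet θ d) := by
    field_simp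
    push_cast
    ring
  rw [e1]
  have h6 : b0 θ d * (3 / 4) ≤ b0 θ d * (1 - bet θ d) :=
    mul_le_mul_of_nonneg_left (by linarith) hb.le
  have h7 : (0 : ℝ) ^ 2 / (n : ℝ) ^ 2 = 0 := by simp
  rw [h7]
  linarith

/-! ### Numerical facts -/

theorem exp_20_le : Real.exp 20 ≤ 2 ^ 29 := by
  have h1 : Real.exp 20 = (Real.exp 1) ^ 20 := by
    rw [← Real.exp_nat_mul]; norm_num
  have h2 := Real.exp_one_lt_d9
  rw [h1]
  calc (Real.exp 1) ^ 20 ≤ (2.72 : ℝ) ^ 20 := by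
        apply pow_le_pow_left₀ (Real.exp_pos 1).le
        linarith
    _ ≤ 2 ^ 29 := by norm_num

theorem exp_7_ge : (2 : ℝ) ^ 10 ≤ Real.exp 7 := by
  have h1 : Real.exp 7 = (Real.exp 1) ^ 7 := by
    rw [← Real.exp_nat_mul]; norm_num
  have h2 := Real.exp_one_gt_d9
  rw [h1]
  calc (2 : ℝ) ^ 10 ≤ (2.7182818283 : ℝ) ^ 7 := by norm_num
    _ ≤ (Real.exp 1) ^ 7 := by
        apply pow_le_pow_left₀ (by norm_num)
        linarith

theorem exp_20_mul_le (m : ℕ) : Real.exp (20 * m) ≤ 2 ^ (29 * m) := by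
  have h1 : Real.exp (20 * m) = (Real.exp 20) ^ m := by
    rw [← Real.exp_nat_mul]; congr 1; ring
  rw [h1, pow_mul]
  exact pow_le_pow_left₀ (Real.exp_pos _).le exp_20_le m

theorem exp_7_mul_ge (m : ℕ) : (2 : ℝ) ^ (10 * m) ≤ Real.exp (7 * m) := by
  have h1 : Real.exp (7 * m) = (Real.exp 7) ^ m := by
    rw [← Real.exp_nat_mul]; congr 1; ring
  rw [h1, pow_mul]
  exact pow_le_pow_left₀ (by positivity) exp_7_ge m

theorem star_concrete : ∃ c : ℝ, 0 < c ∧ ∀ᶠ j : ℕ in atTop,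
      c ≤ succp (2 ^ 3600) (2 ^ 3480 * j - j) (⊥ : SimpleGraph (Fin (2 ^ 3480 * j))) := by
  have hp : ∀ m : ℕ, ((2 ^ m : ℕ) : ℝ) = (2 : ℝ) ^ m := fun m => by push_cast; rfl
  have h2 : (0 : ℝ) < 2 := by norm_num
  refine star_side (d := 2 ^ 3600) (X := 2 ^ 1806) (Y := 2 ^ 3480) (Z := 2 ^ 1674)
    (θ := 1 / 2 ^ 1794) ?_ ?_ ?_ ?_ ?_ ?_ ?_ ?_ ?_ ?_ ?_ ?_ ?_
  · exact (even_two.pow_of_ne_zero (by norm_num))
  · positivity
  · rw [← pow_add]
  · calc 3 ≤ 2 ^ 2 := by norm_num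
      _ ≤ 2 ^ 1674 := Nat.pow_le_pow_right (by norm_num) (by norm_num)
  · exact Nat.one_le_two_pow
  · positivity
  · have : (1000000 : ℝ) ≤ 2 ^ 1794 := by
      calc (1000000 : ℝ) ≤ 2 ^ 20 := by norm_num
        _ ≤ 2 ^ 1794 := pow_le_pow_right₀ (by norm_num) (by norm_num)
    exact one_div_le_one_div_of_le (by norm_num) this
  · rw [hp, div_pow, one_pow, ← pow_mul, one_div_mul_eq_div]
    have e : (2 : ℝ) ^ 3600 = 2 ^ 12 * 2 ^ (1794 * 2) := by rw [← pow_add]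
    rw [e, mul_div_assoc, div_self (by positivity)]
    norm_num
  · rw [hp, hp, one_div_mul_eq_div]
    have e : (2 : ℝ) ^ 3600 = 2 ^ 1806 * 2 ^ 1794 := by rw [← pow_add]
    rw [e, mul_div_assoc, div_self (by positivity), mul_one]
  · rw [hp]
    have e : (4 : ℝ) * 2 ^ 1806 = 2 ^ 1808 := by
      rw [show (4 : ℝ) = 2 ^ 2 by norm_num, ← pow_add]
    rw [e, Real.log_pow]
    have := Real.log_two_lt_d9
    push_cast
    linarith
  · rw [hp]
    have h3 := exp_20_mul_le 61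
    have e1 : (20 * ((61 : ℕ) : ℝ)) = 1220 := by norm_num
    rw [e1] at h3
    calc 8 * Real.exp 1220 ≤ 2 ^ 3 * 2 ^ (29 * 61) := by
          have e2 : (8 : ℝ) = 2 ^ 3 := by norm_num
          rw [e2]
          exact mul_le_mul_of_nonneg_left h3 (by positivity)
      _ = 2 ^ (3 + 29 * 61) := by rw [← pow_add]
      _ ≤ 2 ^ 1806 := pow_le_pow_right₀ (by norm_num) (by norm_num)
  · rw [hp]
    have e1 : √((2 : ℝ) ^ 1806) = 2 ^ 903 := by
      rw [show (2 : ℝ) ^ 1806 = (2 ^ 903) ^ 2 by rw [← pow_mul]]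
      exact Real.sqrt_sq (by positivity)
    rw [e1]
    have h3 := exp_7_mul_ge 96
    have e2 : (7 * ((96 : ℕ) : ℝ)) = 672 := by norm_num
    rw [e2] at h3
    calc 512 * (2 : ℝ) ^ 903 = 2 ^ 9 * 2 ^ 903 := by norm_num
      _ = 2 ^ (9 + 903) := by rw [← pow_add]
      _ ≤ 2 ^ (10 * 96) := pow_le_pow_right₀ (by norm_num) (by norm_num)
      _ ≤ Real.exp 672 := h3
      _ ≤ Real.exp 675 := Real.exp_le_exp.2 (by norm_num)
  · rw [hp]
    have h3 := exp_20_mul_le 119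
    have e1 : (20 * ((119 : ℕ) : ℝ)) = 2380 := by norm_num
    have h4 := exp_20_mul_le 119
    rw [e1] at h3
    have h5 : Real.exp 10 ≤ 2 ^ 15 := by
      have h6 : Real.exp 10 = (Real.exp 1) ^ 10 := by
        rw [← Real.exp_nat_mul]; norm_num
      have h7 := Real.exp_one_lt_d9
      rw [h6]
      calc (Real.exp 1) ^ 10 ≤ (2.72 : ℝ) ^ 10 := by
            apply pow_le_pow_left₀ (Real.exp_pos 1).le
            linarith
        _ ≤ 2 ^ 15 := by norm_num
    calc Real.exp 2390 * 8 = Real.exp 2380 * Real.exp 10 * 8 := by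
          rw [← Real.exp_add]; norm_num
      _ ≤ 2 ^ (29 * 119) * 2 ^ 15 * 2 ^ 3 := by
          have e2 : (8 : ℝ) = 2 ^ 3 := by norm_num
          rw [e2]
          apply mul_le_mul_of_nonneg_right _ (by positivity)
          exact mul_le_mul h3 h5 (Real.exp_pos _).le (by positivity)
      _ = 2 ^ (29 * 119 + 15 + 3) := by rw [← pow_add, ← pow_add]
      _ ≤ 2 ^ 3480 := pow_le_pow_right₀ (by norm_num) (by norm_num)

end Pool.Agent.Helper49.Star
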