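import Mathlib
import Pool.Agent.Helper49.StarEnd

set_option autoImplicit false
open Classical
open Finset

namespace Pool.Agent.Helper49.Star

variable {n : ℕ}

/-- the transition matrix acts as the step operator -/
theorem mulVec_eq_step {d : ℕ} {M : Matrix (SimpleGraph (Fin n)) (SimpleGraph (Fin n)) ℝ}
    (hM : ∀ G H : SimpleGraph (Fin n), M G H =
          if (∀ v, G.degree v = d) then (if H = G then 1 else 0) else
            ∑ v ∈ mins G, ∑ S ∈ (avail d G v).powersetCard (d - G.degree v),
                (if H = star G v S then (1 : ℝ) else 0) /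
                  (((mins G).card : ℝ) *
                    (((avail d G v).card.choose (d - G.degree v) : ℕ) : ℝ)))
    (f : SimpleGraph (Fin n) → ℝ) : M.mulVec f = step d f := by
  funext G
  change ∑ H, M G H * f H = step d f G
  unfold step
  by_cases h : ∀ v, G.degree v = d
  · rw [if_pos h]
    rw [Finset.sum_eq_single G]
    · rw [hM, if_pos h, if_pos rfl, one_mul]
    · intro H _ hH
      rw [hM, if_pos h, if_neg hH, zero_mul]
    · intro h2; exact absurd (Finset.mem_univ _) h2
  · rw [if_neg h]
    have h1 : ∀ H ∈ (Finset.univ : Finset (SimpleGraph (Fin n))), M G H * f H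
        = ∑ v ∈ mins G, ∑ S ∈ (avail d G v).powersetCard (d - G.degree v),
          (if H = star G v S then f H / (((mins G).card : ℝ) *
            (((avail d G v).card.choose (d - G.degree v) : ℕ) : ℝ)) else 0) := by
      intro H _
      rw [hM, if_neg h, Finset.sum_mul]
      apply Finset.sum_congr rfl
      intro v _
      rw [Finset.sum_mul]
      apply Finset.sum_congr rfl
      intro S _
      split_ifs
      · ring
      · simp
    rw [Finset.sum_congr rfl h1, Finset.sum_comm]
    apply Finset.sum_congr rfl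
    intro v _
    rw [Finset.sum_comm]
    apply Finset.sum_congr rfl
    intro S _
    rw [Finset.sum_ite_eq']
    simp

theorem pow_mulVec {d : ℕ} {M : Matrix (SimpleGraph (Fin n)) (SimpleGraph (Fin n)) ℝ}
    (hM : ∀ f : SimpleGraph (Fin n) → ℝ, M.mulVec f = step d f) (s : ℕ)
    (f : SimpleGraph (Fin n) → ℝ) : (M ^ s).mulVec f = (step d)^[s] f := by
  induction s with
  | zero => simp
  | succ s ih => rw [pow_succ', ← Matrix.mulVec_mulVec, ih, hM, Function.iterate_succ_apply']

theorem sum_pow_eq {d : ℕ} {M : Matrix (SimpleGraph (Fin n)) (SimpleGraph (Fin n)) ℝ}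
    (hM : ∀ f : SimpleGraph (Fin n) → ℝ, M.mulVec f = step d f) (s : ℕ)
    (F : Finset (SimpleGraph (Fin n))) (G : SimpleGraph (Fin n)) :
    ∑ H ∈ F, (M ^ s) G H = (step d)^[s] (fun H => if H ∈ F then 1 else 0) G := by
  rw [← pow_mulVec hM]
  change ∑ H ∈ F, (M ^ s) G H = ∑ H, (M ^ s) G H * (if H ∈ F then 1 else 0)
  rw [← Finset.sum_filter_add_sum_filter_not Finset.univ (fun H => H ∈ F)]
  have h1 : ∑ H ∈ Finset.univ.filter (fun H => ¬ H ∈ F),
      (M ^ s) G H * (if H ∈ F then 1 else 0) = 0 := by
    apply Finset.sum_eq_zero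
    intro H hH
    rw [if_neg (Finset.mem_filter.1 hH).2, mul_zero]
  rw [h1, add_zero]
  have h2 : Finset.univ.filter (fun H => H ∈ F) = F := by ext H; simp
  rw [h2]
  apply Finset.sum_congr rfl
  intro H hH
  rw [if_pos hH, mul_one]

theorem step_le_one {d : ℕ} {f : SimpleGraph (Fin n) → ℝ} (hf : ∀ G, f G ≤ 1)
    (G : SimpleGraph (Fin n)) : step d f G ≤ 1 := by
  rw [step]
  by_cases h : ∀ v, G.degree v = d
  · rw [if_pos h]; exact hf G
  · rw [if_neg h]
    have hne := mins_nonempty h
    have hc : (0 : ℝ) < (mins G).card := by exact_mod_cast Finset.card_pos.2 hne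
    have h1 : ∀ v ∈ mins G, ∑ S ∈ (avail d G v).powersetCard (d - G.degree v),
      f (star G v S) /
        (((mins G).card : ℝ) * (((avail d G v).card.choose (d - G.degree v) : ℕ) : ℝ))
        ≤ 1 / (mins G).card := by
      intro v _
      rcases Nat.eq_zero_or_pos ((avail d G v).card.choose (d - G.degree v)) with h0 | h0
      · rw [h0]; simp
      · have hp : (0 : ℝ) < (((avail d G v).card.choose (d - G.degree v) : ℕ) : ℝ) := by
          exact_mod_cast h0
        rw [← Finset.sum_div, div_le_div_iff₀ (by positivity) hc]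
        have h2 : ∑ S ∈ (avail d G v).powersetCard (d - G.degree v), f (star G v S)
            ≤ (((avail d G v).card.choose (d - G.degree v) : ℕ) : ℝ) := by
          calc _ ≤ ∑ S ∈ (avail d G v).powersetCard (d - G.degree v), (1 : ℝ) :=
                Finset.sum_le_sum fun S _ => hf _
            _ = _ := by rw [Finset.sum_const, Finset.card_powersetCard, nsmul_eq_mul, mul_one]
        nlinarith
    refine (Finset.sum_le_sum h1).trans ?_
    rw [Finset.sum_const, nsmul_eq_mul, mul_one_div, div_self hc.ne']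

theorem iter_le_one {d : ℕ} {f : SimpleGraph (Fin n) → ℝ} (hf : ∀ G, f G ≤ 1) (s : ℕ) :
    ∀ G : SimpleGraph (Fin n), (step d)^[s] f G ≤ 1 := by
  induction s with
  | zero => exact hf
  | succ s ih =>
    intro G
    rw [Function.iterate_succ_apply']
    exact step_le_one ih G

/-- iterates increase for functions supported on regular graphs -/
theorem iter_mono_steps {d : ℕ} {f : SimpleGraph (Fin n) → ℝ} (hf0 : ∀ G, 0 ≤ f G)
    (hf : ∀ G, (¬ ∀ v, G.degree v = d) → f G = 0) {s s' : ℕ} (h : s ≤ s')
    (G : SimpleGraph (Fin n)) : (step d)^[s] f G ≤ (step d)^[s'] f G := by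
  have key : ∀ s : ℕ, ∀ G : SimpleGraph (Fin n), (step d)^[s] f G ≤ (step d)^[s + 1] f G := by
    intro s
    induction s with
    | zero =>
      intro G
      rw [Function.iterate_succ_apply', Function.iterate_zero, id_eq]
      by_cases h : ∀ v, G.degree v = d
      · rw [step_reg h]
      · rw [hf G h]; exact step_nonneg hf0 G
    | succ s ih =>
      intro G
      rw [Function.iterate_succ_apply', Function.iterate_succ_apply' (step d) (s + 1)]
      exact step_mono_on (ih G) (fun v _ S _ => ih _)
  induction s', h using Nat.le_induction with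
  | base => exact le_rfl
  | succ s' _ ih => exact ih.trans (key s' G)

/-- existence of a vertex cover with at most `t` vertices -/
def VC (t : ℕ) (G : SimpleGraph (Fin n)) : Prop :=
  ∃ C : Finset (Fin n), C.card ≤ t ∧ ∀ x y, G.Adj x y → x ∈ C ∨ y ∈ C

theorem VC_bot : VC 0 (⊥ : SimpleGraph (Fin n)) := ⟨∅, by simp, fun x y h => by simp at h⟩

theorem VC_succ {t : ℕ} {G : SimpleGraph (Fin n)} (h : VC t G) : VC (t + 1) G := by
  obtain ⟨C, h1, h2⟩ := h
  exact ⟨C, by omega, h2⟩

theorem VC_star {t : ℕ} {G : SimpleGraph (Fin n)} (h : VC t G) (v : Fin n)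
    (S : Finset (Fin n)) : VC (t + 1) (star G v S) := by
  obtain ⟨C, h1, h2⟩ := h
  refine ⟨insert v C, (Finset.card_insert_le v C).trans (by omega), fun x y hxy => ?_⟩
  rw [star_adj] at hxy
  rcases hxy with h3 | ⟨-, ⟨h3, -⟩ | ⟨h3, -⟩⟩
  · rcases h2 x y h3 with h4 | h4
    · exact Or.inl (Finset.mem_insert_of_mem h4)
    · exact Or.inr (Finset.mem_insert_of_mem h4)
  · left; rw [h3]; exact Finset.mem_insert_self _ _
  · right; rw [h3]; exact Finset.mem_insert_self _ _

theorem iter_le_of_VC {d : ℕ} {f g : SimpleGraph (Fin n) → ℝ} (T : ℕ)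
    (h : ∀ G : SimpleGraph (Fin n), VC T G → g G ≤ f G) :
    ∀ s t : ℕ, t + s = T → ∀ G : SimpleGraph (Fin n), VC t G →
      (step d)^[s] g G ≤ (step d)^[s] f G := by
  intro s
  induction s with
  | zero =>
    intro t ht G hG
    have : t = T := by omega
    subst this
    exact h G hG
  | succ s ih =>
    intro t ht G hG
    rw [Function.iterate_succ_apply', Function.iterate_succ_apply']
    refine step_mono_on (ih (t + 1) (by omega) G (VC_succ hG)) (fun v _ S _ => ?_)
    exact ih (t + 1) (by omega) _ (VC_star hG v S)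

/-- independent sets from vertex covers -/
theorem indep_of_VC {T : ℕ} {G : SimpleGraph (Fin n)} (h : VC T G) :
    ∃ I : Finset (Fin n), (∀ x ∈ I, ∀ y ∈ I, ¬ G.Adj x y) ∧ n ≤ I.card + T := by
  obtain ⟨C, h1, h2⟩ := h
  refine ⟨Cᶜ, fun x hx y hy hxy => ?_, ?_⟩
  · rw [Finset.mem_compl] at hx hy
    rcases h2 x y hxy with h3 | h3
    · exact hx h3
    · exact hy h3
  · rw [Finset.card_compl, Fintype.card_fin]
    omega

end Pool.Agent.Helper49.Star
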